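import Pool.Agent.T9h92.INF.FourMain

set_option autoImplicit false

open Finset Pool.Agent.H428I

namespace Pool.Agent.T9h92.INF

/-- the paths of the infiltrator's mixture -/
def lI : Fin 7 → List ℤ :=
  ![[1, 1, 2, 3, 4], [1, 1, 1, 2, 3, 4], [1, 2, 3, 4], [1, 2, 2, 3, 4], [2, 1, 2, 3, 4],
    [2, 2, 3, 4], [2, 3, 4]]

/-- the weights of the infiltrator's mixture, up to the factor `7 + 4 lam + lam ^ 2` -/
def wI (lam : ℝ) : Fin 7 → ℝ := ![1, 1 + lam, 1 + lam, 1, 1, 1, (1 + lam) ^ 2]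

/-- the first cell of the searcher's paths -/
def aS : Fin 5 → ℤ := ![1, 1, 1, 2, 2]

/-- the second cell of the searcher's paths -/
def bS : Fin 5 → ℤ := ![1, 2, 3, 1, 2]

/-- the weights of the searcher's mixture, up to the factor `7 + 4 lam + lam ^ 2` -/
def wS (lam : ℝ) : Fin 5 → ℝ := ![1, 1, (1 + lam) ^ 2, 2 + lam, 2 + lam]

/-- the value -/
noncomputable def valFour (lam : ℝ) : ℝ :=
  lam * (1 + lam) ^ 2 * (2 + lam) / (7 + 4 * lam + lam ^ 2)

lemma den_pos {lam : ℝ} (h0 : 0 < lam) : 0 < 7 + 4 * lam + lam ^ 2 := by positivity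

lemma wI_pos {lam : ℝ} (h0 : 0 < lam) (i : Fin 7) : 0 < wI lam i := by
  fin_cases i <;> simp [wI] <;> positivity

lemma wS_pos {lam : ℝ} (h0 : 0 < lam) (i : Fin 5) : 0 < wS lam i := by
  fin_cases i <;> simp [wS] <;> positivity

lemma wI_sum {lam : ℝ} (h0 : 0 < lam) : ∑ i, wI lam i / (7 + 4 * lam + lam ^ 2) = 1 := by
  rw [← sum_div, div_eq_one_iff_eq (den_pos h0).ne', Fin.sum_univ_seven]
  simp [wI]
  ring

lemma wS_sum {lam : ℝ} (h0 : 0 < lam) : ∑ i, wS lam i / (7 + 4 * lam + lam ^ 2) = 1 := by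
  rw [← sum_div, div_eq_one_iff_eq (den_pos h0).ne', Fin.sum_univ_five]
  simp [wS]
  ring

lemma lI_infil (i : Fin 7) : IsInfil 4 (pth (lI i)) := by
  refine ⟨rfl, fun k => ?_⟩
  rcases Nat.lt_or_ge k 7 with h | h
  · fin_cases i <;> interval_cases k <;> simp [pth, lI, abs_le] <;> norm_num
  · obtain ⟨m, rfl⟩ := Nat.exists_eq_add_of_le h
    have e1 : ∀ j, 6 ≤ j → (lI i).getD j 5 = 5 := by
      intro j hj
      apply List.getD_eq_default
      refine le_trans ?_ hj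
      fin_cases i <;> simp [lI]
    have e2 : pth (lI i) (7 + m + 1) = 5 := by rw [pth_succ]; exact e1 _ (by omega)
    have e3 : pth (lI i) (7 + m) = 5 := by
      rw [show 7 + m = (6 + m) + 1 by omega, pth_succ]; exact e1 _ (by omega)
    rw [e2, e3]
    norm_num

lemma sp_search (j : Fin 5) (w : ℕ) (hw : 3 ≤ w) : IsSearch 4 w (sp (aS j) (bS j)) := by
  have hw' : (3 : ℤ) ≤ w := by exact_mod_cast hw
  refine ⟨rfl, fun k => ?_⟩
  rcases k with _ | _ | _ | k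
  · fin_cases j <;> simp [sp, aS, bS, abs_le] <;> omega
  · fin_cases j <;> simp [sp, aS, bS, abs_le] <;> omega
  · fin_cases j <;> simp [sp, aS, bS, abs_le] <;> omega
  · simp [sp]

/-- the guarantee of the infiltrator, for every speed of the searcher -/
theorem four_infil {lam : ℝ} (h0 : 0 < lam) (h1 : lam < 1) (w : ℕ) (y : ℕ → ℤ)
    (hy : IsSearch 4 w y) :
    valFour lam ≤ ∑ i, wI lam i / (7 + 4 * lam + lam ^ 2) * win 4 lam (pth (lI i)) y := by
  have hD := den_pos h0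
  have hr : ∀ k, y (k + 1) = 1 ∨ y (k + 1) = 2 ∨ y (k + 1) = 3 ∨ y (k + 1) = 4 := by
    intro k
    have h := hy.2 k
    have h3 := h.2.1
    push_cast at h3
    omega
  have hb := phi_bound h0 h1 (y 3) (y 4) (y 5) (hr 2) (hr 3) (hr 4) (y 1) (y 2)
  have e : ∑ i, wI lam i / (7 + 4 * lam + lam ^ 2) * win 4 lam (pth (lI i)) y =
      (∑ i, wI lam i * win 4 lam (pth (lI i)) y) / (7 + 4 * lam + lam ^ 2) := by
    rw [sum_div]
    exact sum_congr rfl fun i _ => by ring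
  unfold valFour
  rw [e]
  apply div_le_div_of_nonneg_right _ hD.le
  have w0 : win 4 lam (pth [1, 1, 2, 3, 4]) y = ee lam (y 1 = 1) * ee lam (y 2 = 1) *
      ee lam (y 3 = 2) * ee lam (y 4 = 3) * ee lam (y 5 = 4) := by
    rw [win_pth lam _ (by simp)]; simp [prod_range_succ]
  have w1 : win 4 lam (pth [1, 1, 1, 2, 3, 4]) y = ee lam (y 1 = 1) * ee lam (y 2 = 1) *
      ee lam (y 3 = 1) * ee lam (y 4 = 2) * ee lam (y 5 = 3) * ee lam (y 6 = 4) := by
    rw [win_pth lam _ (by simp)]; simp [prod_range_succ]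
  have w2 : win 4 lam (pth [1, 2, 3, 4]) y = ee lam (y 1 = 1) * ee lam (y 2 = 2) *
      ee lam (y 3 = 3) * ee lam (y 4 = 4) := by
    rw [win_pth lam _ (by simp)]; simp [prod_range_succ]
  have w3 : win 4 lam (pth [1, 2, 2, 3, 4]) y = ee lam (y 1 = 1) * ee lam (y 2 = 2) *
      ee lam (y 3 = 2) * ee lam (y 4 = 3) * ee lam (y 5 = 4) := by
    rw [win_pth lam _ (by simp)]; simp [prod_range_succ]
  have w4 : win 4 lam (pth [2, 1, 2, 3, 4]) y = ee lam (y 1 = 2) * ee lam (y 2 = 1) *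
      ee lam (y 3 = 2) * ee lam (y 4 = 3) * ee lam (y 5 = 4) := by
    rw [win_pth lam _ (by simp)]; simp [prod_range_succ]
  have w5 : win 4 lam (pth [2, 2, 3, 4]) y = ee lam (y 1 = 2) * ee lam (y 2 = 2) *
      ee lam (y 3 = 3) * ee lam (y 4 = 4) := by
    rw [win_pth lam _ (by simp)]; simp [prod_range_succ]
  have w6 : win 4 lam (pth [2, 3, 4]) y = ee lam (y 1 = 2) * ee lam (y 2 = 3) *
      ee lam (y 3 = 4) := by
    rw [win_pth lam _ (by simp)]; simp [prod_range_succ]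
  have hs : ∑ i, wI lam i * win 4 lam (pth (lI i)) y =
      1 * win 4 lam (pth [1, 1, 2, 3, 4]) y + (1 + lam) * win 4 lam (pth [1, 1, 1, 2, 3, 4]) y +
      (1 + lam) * win 4 lam (pth [1, 2, 3, 4]) y + 1 * win 4 lam (pth [1, 2, 2, 3, 4]) y +
      1 * win 4 lam (pth [2, 1, 2, 3, 4]) y + 1 * win 4 lam (pth [2, 2, 3, 4]) y +
      (1 + lam) ^ 2 * win 4 lam (pth [2, 3, 4]) y := by
    rw [Fin.sum_univ_seven]
    rfl
  have h6 : ee lam (y 1 = 1) * ee lam (y 2 = 1) * ee lam (y 3 = 1) * ee lam (y 4 = 2) *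
      ee lam (y 5 = 3) * lam ≤ ee lam (y 1 = 1) * ee lam (y 2 = 1) *
      ee lam (y 3 = 1) * ee lam (y 4 = 2) * ee lam (y 5 = 3) * ee lam (y 6 = 4) := by
    apply mul_le_mul_of_nonneg_left (le_ee h1 _)
    exact (mul_pos (mul_pos (mul_pos (mul_pos (ee_pos h0 _) (ee_pos h0 _)) (ee_pos h0 _))
      (ee_pos h0 _)) (ee_pos h0 _)).le
  have h7 := mul_le_mul_of_nonneg_left h6 (by linarith : 0 ≤ 1 + lam)
  rw [hs, w0, w1, w2, w3, w4, w5, w6]
  have e0 : lam * (1 + lam) ^ 2 * (2 + lam) = lam * ((1 + lam) ^ 2 * (2 + lam)) := by ring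
  rw [e0]
  refine hb.trans ?_
  unfold Phi
  nlinarith [h7]

/-- the guarantee of the searcher -/
theorem four_search {lam : ℝ} (h0 : 0 < lam) (h1 : lam < 1) (x : ℕ → ℤ) (hx : IsInfil 4 x) :
    ∑ j, wS lam j / (7 + 4 * lam + lam ^ 2) * win 4 lam x (sp (aS j) (bS j)) ≤ valFour lam := by
  have hD := den_pos h0
  have e : ∑ j, wS lam j / (7 + 4 * lam + lam ^ 2) * win 4 lam x (sp (aS j) (bS j)) =
      (∑ j, wS lam j * win 4 lam x (sp (aS j) (bS j))) / (7 + 4 * lam + lam ^ 2) := by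
    rw [sum_div]
    exact sum_congr rfl fun i _ => by ring
  rw [e]
  unfold valFour
  apply div_le_div_of_nonneg_right _ hD.le
  by_cases hT : ∃ T, x T = ((4 : ℕ) : ℤ) + 1
  · classical
    obtain ⟨T, hT1, hT2⟩ : ∃ T, x T = ((4 : ℕ) : ℤ) + 1 ∧
        ∀ k, k < T → x k ≠ ((4 : ℕ) : ℤ) + 1 :=
      ⟨Nat.find hT, Nat.find_spec hT, fun k hk => Nat.find_min hT hk⟩
    have hup : ∀ k : ℕ, x k ≤ 1 + k := by
      intro k
      induction k with
      | zero => rw [hx.1]; norm_num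
      | succ k ih =>
        have h3 := (hx.2 k).2.2
        rw [abs_le] at h3
        push_cast
        linarith [h3.2]
    have hT4 : 4 ≤ T := by
      have h3 := hup T
      rw [hT1] at h3
      push_cast at h3
      omega
    obtain ⟨R, rfl⟩ : ∃ R, T = R + 4 := ⟨T - 4, by omega⟩
    have hfour : x (R + 3) = 4 := by
      have h3 := (hx.2 (R + 3)).2.2
      have h5 := (hx.2 (R + 2)).2.1
      have h4 := hT2 (R + 3) (by omega)
      rw [show R + 3 + 1 = R + 4 by omega, hT1, abs_le] at h3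
      rw [show R + 2 + 1 = R + 3 by omega] at h5
      push_cast at h3 h4 h5
      omega
    have hw : ∀ a b : ℤ, win 4 lam x (sp a b) ≤ lam * (ee lam (x 1 = a) * ee lam (x 2 = b)) := by
      intro a b
      exact win_le_three h0 h1 hT1 hT2 hT4 (by
        rw [show R + 4 - 1 = R + 3 by omega, hfour]; rfl)
    have hs : ∑ j, wS lam j * win 4 lam x (sp (aS j) (bS j)) =
        1 * win 4 lam x (sp 1 1) + 1 * win 4 lam x (sp 1 2) + (1 + lam) ^ 2 * win 4 lam x (sp 1 3) +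
        (2 + lam) * win 4 lam x (sp 2 1) + (2 + lam) * win 4 lam x (sp 2 2) := by
      rw [Fin.sum_univ_five]
      rfl
    have g1 := hw 1 1
    have g2 := hw 1 2
    have g3 := mul_le_mul_of_nonneg_left (hw 1 3) (by positivity : 0 ≤ (1 + lam) ^ 2)
    have g4 := mul_le_mul_of_nonneg_left (hw 2 1) (by positivity : 0 ≤ 2 + lam)
    have g5 := mul_le_mul_of_nonneg_left (hw 2 2) (by positivity : 0 ≤ 2 + lam)
    have hxy : (x 1 = 1 ∧ x 2 = 1) ∨ (x 1 = 1 ∧ x 2 = 2) ∨ (x 1 = 2 ∧ x 2 = 1) ∨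
        (x 1 = 2 ∧ x 2 = 2) ∨ (x 1 = 2 ∧ x 2 = 3) := by
      have h3 := hx.2 0
      have h4 := hx.2 1
      rw [show 0 + 1 = 1 from rfl, hx.1, abs_le] at h3
      rw [show 1 + 1 = 2 from rfl, abs_le] at h4
      omega
    rw [hs]
    have fin : 1 * (lam * (ee lam (x 1 = 1) * ee lam (x 2 = 1))) +
        1 * (lam * (ee lam (x 1 = 1) * ee lam (x 2 = 2))) +
        (1 + lam) ^ 2 * (lam * (ee lam (x 1 = 1) * ee lam (x 2 = 3))) +
        (2 + lam) * (lam * (ee lam (x 1 = 2) * ee lam (x 2 = 1))) +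
        (2 + lam) * (lam * (ee lam (x 1 = 2) * ee lam (x 2 = 2))) =
        lam * (1 + lam) ^ 2 * (2 + lam) := by
      rcases hxy with ⟨h3, h4⟩ | ⟨h3, h4⟩ | ⟨h3, h4⟩ | ⟨h3, h4⟩ | ⟨h3, h4⟩ <;>
        (rw [h3, h4]; unfold ee; norm_num; ring)
    linarith
  · have h3 : ∀ y : ℕ → ℤ, win 4 lam x y = 0 := by
      intro y
      classical
      unfold win
      rw [dif_neg hT]
    simp only [h3, mul_zero, sum_const_zero]
    positivity

end Pool.Agent.T9h92.INF
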