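import Pool.Agent.T9h92.INF.Slow

set_option autoImplicit false

open Finset Pool.Agent.H428I

namespace Pool.Agent.T9h92.INF

lemma val_le_one {lam : ℝ} (h0 : 0 < lam) (h1 : lam < 1) : val lam ≤ 1 := by
  have hr0 := rho_pos h0 h1
  have hr1 := rho_lt_one h0 h1
  have h4 : lam + (1 - lam) * rho lam ≤ 1 := by
    nlinarith [mul_pos (sub_pos.2 h1) (sub_pos.2 hr1)]
  unfold val
  nlinarith

lemma val_pos {lam : ℝ} (h0 : 0 < lam) (h1 : lam < 1) : 0 < val lam := by
  have hr0 := rho_pos h0 h1
  unfold val
  have := mul_pos (sub_pos.2 h1) hr0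
  positivity

lemma pot_le {lam : ℝ} (h0 : 0 < lam) (h1 : lam < 1) (c : ℤ) : pot lam c ≤ 1 / (1 - rho lam) := by
  have hp : 0 < 1 - rho lam := by linarith [rho_lt_one h0 h1]
  unfold pot
  split_ifs
  · exact div_le_div_of_nonneg_right h1.le hp.le
  · exact div_le_div_of_nonneg_right (val_le_one h0 h1) hp.le

lemma telescope {lam : ℝ} (h0 : 0 < lam) (h1 : lam < 1) (y : ℕ → ℤ) (hy : IsSearch 3 1 y) (N : ℕ) :
    pot lam (y 1) ≤ ∑ s ∈ range N, rho lam ^ s * win 3 lam (delay 3 s) y +
      rho lam ^ N * (lam ^ cnt y N * pot lam (y (N + 1))) := by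
  have hr0 := rho_pos h0 h1
  induction N with
  | zero => simp [cnt_zero]
  | succ N ih =>
    refine ih.trans ?_
    rw [sum_range_succ, win_delay, cnt_succ]
    have hy1 := hy.2 N
    have hy2 := hy.2 (N + 1)
    have hb := bellman h0 h1 (y (N + 1)) (y (N + 2)) hy1.1 (by exact_mod_cast hy1.2.1) hy2.1
      (by exact_mod_cast hy2.2.1) (by exact_mod_cast hy2.2.2)
    have hc : 0 ≤ rho lam ^ N * lam ^ cnt y N := by positivity
    have h2 := mul_le_mul_of_nonneg_left hb hc
    have e : rho lam ^ N * lam ^ cnt y N * (lam ^ ((if y (N + 1) = 2 then 1 else 0) +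
        (if y (N + 2) = 3 then 1 else 0)) +
      rho lam * (lam ^ (if y (N + 1) = 1 then 1 else 0) * pot lam (y (N + 2)))) =
      rho lam ^ N * lam ^ (cnt y N + (if y (N + 1) = 2 then 1 else 0) +
        (if y (N + 2) = 3 then 1 else 0)) + rho lam ^ (N + 1) *
          (lam ^ (cnt y N + if y (N + 1) = 1 then 1 else 0) * pot lam (y (N + 2))) := by
      rw [add_assoc (cnt y N), pow_add lam (cnt y N) (_ + _), pow_add lam (cnt y N) (ite _ _ _),
        pow_succ]
      ring
    rw [e] at h2
    have e3 : N + 1 + 1 = N + 2 := rfl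
    rw [e3]
    linarith

/-- the guarantee of the infiltrator -/
theorem infil_guarantee {lam : ℝ} (h0 : 0 < lam) (h1 : lam < 1) (y : ℕ → ℤ)
    (hy : IsSearch 3 1 y) :
    Summable (fun s : ℕ => (1 - rho lam) * rho lam ^ s * win 3 lam (delay 3 s) y) ∧
    val lam ≤ ∑' s : ℕ, (1 - rho lam) * rho lam ^ s * win 3 lam (delay 3 s) y := by
  have hr0 := rho_pos h0 h1
  have hr1 := rho_lt_one h0 h1
  have hp : 0 < 1 - rho lam := by linarith
  have hnn : ∀ s : ℕ, 0 ≤ rho lam ^ s * win 3 lam (delay 3 s) y :=
    fun s => mul_nonneg (pow_pos hr0 s).le (win_nonneg h0 _ _)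
  have hsum : Summable (fun s : ℕ => rho lam ^ s * win 3 lam (delay 3 s) y) := by
    refine Summable.of_nonneg_of_le hnn (fun s => ?_) (summable_geometric_of_lt_one hr0.le hr1)
    exact mul_le_of_le_one_right (pow_pos hr0 s).le (win_le_one h0 h1 _ _)
  have hpot : pot lam (y 1) = val lam / (1 - rho lam) := by
    have h2 := (hy.2 0).2.2
    rw [hy.1, abs_le] at h2
    unfold pot
    rw [if_neg]
    push_cast at h2
    intro h3
    rw [h3] at h2
    norm_num at h2
  have key : val lam / (1 - rho lam) ≤ ∑' s : ℕ, rho lam ^ s * win 3 lam (delay 3 s) y := by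
    have hN : ∀ N : ℕ, val lam / (1 - rho lam) ≤
        (∑' s : ℕ, rho lam ^ s * win 3 lam (delay 3 s) y) + rho lam ^ N * (1 / (1 - rho lam)) := by
      intro N
      have h2 := telescope h0 h1 y hy N
      rw [hpot] at h2
      have h3 : ∑ s ∈ range N, rho lam ^ s * win 3 lam (delay 3 s) y ≤
          ∑' s : ℕ, rho lam ^ s * win 3 lam (delay 3 s) y := hsum.sum_le_tsum _ fun s _ => hnn s
      have h4 : rho lam ^ N * (lam ^ cnt y N * pot lam (y (N + 1))) ≤
          rho lam ^ N * (1 / (1 - rho lam)) := by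
        apply mul_le_mul_of_nonneg_left _ (pow_pos hr0 N).le
        have h5 := pot_le h0 h1 (y (N + 1))
        have h6 : lam ^ cnt y N ≤ 1 := pow_le_one₀ h0.le h1.le
        have h7 : 0 < lam ^ cnt y N := pow_pos h0 _
        have h8 : 0 < 1 / (1 - rho lam) := by positivity
        calc lam ^ cnt y N * pot lam (y (N + 1)) ≤ lam ^ cnt y N * (1 / (1 - rho lam)) :=
              mul_le_mul_of_nonneg_left h5 h7.le
          _ ≤ 1 * (1 / (1 - rho lam)) := mul_le_mul_of_nonneg_right h6 h8.le
          _ = 1 / (1 - rho lam) := one_mul _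
      linarith
    have hlim : Filter.Tendsto (fun N : ℕ =>
        (∑' s : ℕ, rho lam ^ s * win 3 lam (delay 3 s) y) + rho lam ^ N * (1 / (1 - rho lam)))
        Filter.atTop (nhds ((∑' s : ℕ, rho lam ^ s * win 3 lam (delay 3 s) y) +
          0 * (1 / (1 - rho lam)))) :=
      ((tendsto_pow_atTop_nhds_zero_of_lt_one hr0.le hr1).mul_const _).const_add _
    rw [zero_mul, add_zero] at hlim
    exact ge_of_tendsto' hlim hN
  have e : ∀ s : ℕ, (1 - rho lam) * rho lam ^ s * win 3 lam (delay 3 s) y =
      (1 - rho lam) * (rho lam ^ s * win 3 lam (delay 3 s) y) := fun s => mul_assoc _ _ _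
  simp only [e]
  refine ⟨hsum.mul_left _, ?_⟩
  rw [tsum_mul_left]
  rw [div_le_iff₀ hp] at key
  linarith

/-- the parameter of the geometric delay of the searcher -/
noncomputable def zeta (lam : ℝ) : ℝ := lam * rho lam / (1 + lam)

lemma zeta_pos {lam : ℝ} (h0 : 0 < lam) (h1 : lam < 1) : 0 < zeta lam := by
  have hr0 := rho_pos h0 h1
  unfold zeta; positivity

lemma zeta_lt_one {lam : ℝ} (h0 : 0 < lam) (h1 : lam < 1) : zeta lam < 1 := by
  have hr0 := rho_pos h0 h1
  have hr1 := rho_lt_one h0 h1
  unfold zeta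
  rw [div_lt_one (by linarith)]
  nlinarith

lemma zeta_quad {lam : ℝ} (h0 : 0 < lam) (h1 : lam < 1) :
    lam * (1 + lam) * zeta lam ^ 2 - (1 + lam) ^ 2 * zeta lam + lam = 0 := by
  have hq := rho_quad h0 h1
  have e : lam * (1 + lam) * zeta lam ^ 2 - (1 + lam) ^ 2 * zeta lam + lam =
      lam / (1 + lam) * (lam ^ 2 * rho lam ^ 2 - (1 + lam) ^ 2 * rho lam + (1 + lam)) := by
    unfold zeta
    field_simp
  rw [e, hq, mul_zero]

lemma val_zeta {lam : ℝ} (h0 : 0 < lam) : val lam = (1 - zeta lam) * lam ^ 2 + zeta lam := by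
  unfold val zeta
  field_simp
  ring

lemma bound_sum {lam : ℝ} (h0 : 0 < lam) (h1 : lam < 1) (s : ℕ) :
    ∑ a ∈ range s, (1 - zeta lam) * zeta lam ^ a * lam ^ (a + 1) +
      (1 - zeta lam) * zeta lam ^ s * lam ^ (s + 2) + lam ^ s * zeta lam ^ (s + 1) = val lam := by
  induction s with
  | zero => rw [val_zeta h0]; simp
  | succ s ih =>
    rw [sum_range_succ, ← ih]
    have hq := zeta_quad h0 h1
    set z := zeta lam
    have e : (1 - z) * z ^ s * lam ^ (s + 1) + (1 - z) * z ^ (s + 1) * lam ^ (s + 1 + 2) +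
        lam ^ (s + 1) * z ^ (s + 1 + 1) - (1 - z) * z ^ s * lam ^ (s + 2) -
          lam ^ s * z ^ (s + 1) = z ^ s * lam ^ s * (1 - lam) *
            (lam * (1 + lam) * z ^ 2 - (1 + lam) ^ 2 * z + lam) := by
      ring
    rw [hq, mul_zero] at e
    linarith

/-- the guarantee of the searcher -/
theorem search_guarantee {lam : ℝ} (h0 : 0 < lam) (h1 : lam < 1) (x : ℕ → ℤ)
    (hx : IsInfil 3 x) :
    Summable (fun a : ℕ => (1 - zeta lam) * zeta lam ^ a * win 3 lam x (delay 2 a)) ∧
    ∑' a : ℕ, (1 - zeta lam) * zeta lam ^ a * win 3 lam x (delay 2 a) ≤ val lam := by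
  have hz0 := zeta_pos h0 h1
  have hz1 := zeta_lt_one h0 h1
  have hp : 0 < 1 - zeta lam := by linarith
  have hw : ∀ a : ℕ, 0 < (1 - zeta lam) * zeta lam ^ a := fun a => mul_pos hp (pow_pos hz0 a)
  have hgeo : Summable (fun a : ℕ => (1 - zeta lam) * zeta lam ^ a) :=
    (summable_geometric_of_lt_one hz0.le hz1).mul_left _
  have hsum : Summable (fun a : ℕ => (1 - zeta lam) * zeta lam ^ a * win 3 lam x (delay 2 a)) := by
    refine Summable.of_nonneg_of_le (fun a => mul_nonneg (hw a).le (win_nonneg h0 _ _))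
      (fun a => ?_) hgeo
    exact mul_le_of_le_one_right (hw a).le (win_le_one h0 h1 _ _)
  refine ⟨hsum, ?_⟩
  by_cases hT : ∃ T, x T = ((3 : ℕ) : ℤ) + 1
  · classical
    obtain ⟨T, hT1, hT2⟩ : ∃ T, x T = ((3 : ℕ) : ℤ) + 1 ∧
        ∀ k, k < T → x k ≠ ((3 : ℕ) : ℤ) + 1 :=
      ⟨Nat.find hT, Nat.find_spec hT, fun k hk => Nat.find_min hT hk⟩
    have h2 : ∃ k, 2 ≤ x k := ⟨T, by rw [hT1]; norm_num⟩
    obtain ⟨t, ht1, ht2⟩ : ∃ t, 2 ≤ x t ∧ ∀ k, k < t → ¬ 2 ≤ x k :=
      ⟨Nat.find h2, Nat.find_spec h2, fun k hk => Nat.find_min h2 hk⟩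
    have ht0 : t ≠ 0 := by
      rintro rfl
      rw [hx.1] at ht1; norm_num at ht1
    obtain ⟨s, rfl⟩ := Nat.exists_eq_succ_of_ne_zero ht0
    have hone : ∀ k, k ≤ s → x k = 1 := by
      intro k hk
      have h3 := ht2 k (by omega)
      rcases Nat.eq_zero_or_pos k with rfl | hk0
      · exact hx.1
      · obtain ⟨j, rfl⟩ := Nat.exists_eq_succ_of_ne_zero hk0.ne'
        have := (hx.2 j).1
        simp only [Nat.succ_eq_add_one] at *
        omega
    have htwo : x (s + 1) = 2 := by
      have h3 := (hx.2 s).2.2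
      rw [hone s le_rfl, abs_le] at h3
      simp only [Nat.succ_eq_add_one] at ht1
      omega
    have hTpos : T ≠ 0 := by
      rintro rfl
      rw [hx.1] at hT1; norm_num at hT1
    obtain ⟨R, rfl⟩ := Nat.exists_eq_succ_of_ne_zero hTpos
    simp only [Nat.succ_eq_add_one] at *
    have hthree : x R = 3 := by
      have h3 := (hx.2 R).2.2
      rw [hT1, abs_le] at h3
      have h4 := hT2 R (by omega)
      push_cast at h3 h4
      have h5 : x R ≤ 4 := by
        rcases Nat.eq_zero_or_pos R with h | hk0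
        · rw [h, hx.1]; norm_num
        · obtain ⟨j, rfl⟩ := Nat.exists_eq_succ_of_ne_zero hk0.ne'
          have := (hx.2 j).2.1
          push_cast at this
          linarith
      omega
    have hR : s + 2 ≤ R := by
      by_contra h
      have h3 : R ≤ s ∨ R = s + 1 := by omega
      rcases h3 with h3 | h3
      · rw [hone R h3] at hthree; norm_num at hthree
      · rw [h3, htwo] at hthree; norm_num at hthree
    -- the number of the catches
    have hb : ∀ a : ℕ, win 3 lam x (delay 2 a) ≤
        lam ^ (if a < s then a + 1 else if a = s then s + 2 else s) := by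
      intro a
      split_ifs with h3 h4
      · refine win_le_pow h0 h1 hT1 hT2 (insert R (Icc 1 a)) ?_ ?_
        · intro k hk
          rw [mem_insert, mem_Icc] at hk
          rcases hk with rfl | ⟨hk1, hk2⟩
          · refine ⟨by omega, by omega, ?_⟩
            rw [hthree]; unfold delay; push_cast; omega
          · refine ⟨hk1, by omega, ?_⟩
            rw [hone k (by omega)]; unfold delay; push_cast; omega
        · rw [card_insert_of_notMem (by simp; omega), Nat.card_Icc]
          omega
      · subst h4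
        refine win_le_pow h0 h1 hT1 hT2 (insert R (Icc 1 (a + 1))) ?_ ?_
        · intro k hk
          rw [mem_insert, mem_Icc] at hk
          rcases hk with rfl | ⟨hk1, hk2⟩
          · refine ⟨by omega, by omega, ?_⟩
            rw [hthree]; unfold delay; push_cast; omega
          · refine ⟨hk1, by omega, ?_⟩
            rcases Nat.lt_or_ge a k with h5 | h5
            · have : k = a + 1 := by omega
              subst this
              rw [htwo]; unfold delay; push_cast; omega
            · rw [hone k h5]; unfold delay; push_cast; omega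
        · rw [card_insert_of_notMem (by simp; omega), Nat.card_Icc]
          omega
      · refine win_le_pow h0 h1 hT1 hT2 (Icc 1 s) ?_ ?_
        · intro k hk
          rw [mem_Icc] at hk
          refine ⟨hk.1, by omega, ?_⟩
          rw [hone k hk.2]; unfold delay; push_cast; omega
        · rw [Nat.card_Icc]
          omega
    set g : ℕ → ℝ := fun a => (1 - zeta lam) * zeta lam ^ a *
      lam ^ (if a < s then a + 1 else if a = s then s + 2 else s) with hg
    have hgs : Summable g := by
      refine Summable.of_nonneg_of_le (fun a => mul_nonneg (hw a).le (pow_pos h0 _).le)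
        (fun a => ?_) hgeo
      exact mul_le_of_le_one_right (hw a).le (pow_le_one₀ h0.le h1.le)
    calc ∑' a : ℕ, (1 - zeta lam) * zeta lam ^ a * win 3 lam x (delay 2 a)
        ≤ ∑' a : ℕ, g a := hsum.tsum_le_tsum
          (fun a => mul_le_mul_of_nonneg_left (hb a) (hw a).le) hgs
      _ = ∑ a ∈ range (s + 1), g a + ∑' a : ℕ, g (a + (s + 1)) :=
          (hgs.sum_add_tsum_nat_add (s + 1)).symm
      _ = val lam := by
          have e1 : ∑ a ∈ range (s + 1), g a =
              ∑ a ∈ range s, (1 - zeta lam) * zeta lam ^ a * lam ^ (a + 1) +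
                (1 - zeta lam) * zeta lam ^ s * lam ^ (s + 2) := by
            rw [sum_range_succ]
            congr 1
            · apply sum_congr rfl
              intro a ha
              rw [mem_range] at ha
              simp only [hg]
              rw [if_pos ha]
            · simp only [hg]
              rw [if_neg (lt_irrefl s), if_true]
          have e2 : ∀ a : ℕ, g (a + (s + 1)) =
              ((1 - zeta lam) * zeta lam ^ (s + 1) * lam ^ s) * zeta lam ^ a := by
            intro a
            simp only [hg]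
            rw [if_neg (by omega), if_neg (by omega), pow_add (zeta lam) a (s + 1)]
            ring
          simp only [e2]
          rw [tsum_mul_left, tsum_geometric_of_lt_one hz0.le hz1, e1, ← bound_sum h0 h1 s]
          have : (1 - zeta lam) ≠ 0 := hp.ne'
          field_simp
  · have : ∀ a : ℕ, (1 - zeta lam) * zeta lam ^ a * win 3 lam x (delay 2 a) = 0 := by
      intro a
      have h3 : win 3 lam x (delay 2 a) = 0 := by
        classical
        unfold win
        rw [dif_neg hT]
      rw [h3, mul_zero]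
    simp only [this, tsum_zero]
    exact (val_pos h0 h1).le

end Pool.Agent.T9h92.INF
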