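import Pool.Agent.T9h92.INF.Slow

set_option autoImplicit false

open Finset Pool.Agent.H428I

namespace Pool.Agent.T9h92.INF

lemma delay_infil_gen (n s : ℕ) : IsInfil n (delay n s) := by
  unfold IsInfil delay
  refine ⟨by simp, fun k => ⟨?_, ?_, ?_⟩⟩
  · push_cast; omega
  · push_cast; omega
  · rw [abs_le]; push_cast; omega

lemma win_delay_gen {n : ℕ} (hn : 1 ≤ n) (lam : ℝ) (y : ℕ → ℤ) (s : ℕ) :
    win n lam (delay n s) y =
      lam ^ ((Finset.Ico 1 (s + n)).filter (fun k => delay n s k = y k)).card := by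
  apply win_eq
  · unfold delay; push_cast; omega
  · intro k hk; unfold delay; push_cast; omega

/-- the index of a searcher of speed 1 is nondecreasing -/
lemma index_mono {n : ℕ} {y : ℕ → ℤ} (hy : IsSearch n 1 y) (T d : ℕ) :
    (T : ℤ) - y T ≤ ((T + d : ℕ) : ℤ) - y (T + d) := by
  induction d with
  | zero => simp
  | succ d ih =>
    have h := (hy.2 (T + d)).2.2
    rw [abs_le] at h
    push_cast at *
    rw [← add_assoc T d 1]
    linarith [h.2]

lemma count_le {n : ℕ} {y : ℕ → ℤ} (hy : IsSearch n 1 y) (T : ℕ) (hT1 : 1 ≤ T) (hTn : T ≤ n)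
    (hne : ∀ k, 1 ≤ k → k < T → y k ≠ 1) (hT : y T = 1 ∨ T = n) :
    ∑ s ∈ range T, ((Finset.Ico 1 (s + n)).filter (fun k => delay n s k = y k)).card ≤ 2 * T := by
  rw [← card_sigma]
  have key : ∀ p ∈ (range T).sigma
      (fun s => (Finset.Ico 1 (s + n)).filter (fun k => delay n s k = y k)),
      p.1 < T ∧ 1 ≤ p.2 ∧ p.2 < p.1 + n ∧ (p.1 : ℤ) = 1 + p.2 - y p.2 := by
    rintro ⟨s, k⟩ hp
    rw [mem_sigma, mem_filter, mem_Ico, mem_range] at hp
    obtain ⟨h1, ⟨h2, h3⟩, h4⟩ := hp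
    simp only at h1 h2 h3 h4 ⊢
    refine ⟨h1, h2, h3, ?_⟩
    have h5 : s < k := by
      by_contra h
      have h6 := hne k h2 (by omega)
      apply h6
      rw [← h4]
      unfold delay
      push_cast
      omega
    rw [← h4]
    unfold delay
    push_cast
    omega
  have hcard : ((range T).sigma
      (fun s => (Finset.Ico 1 (s + n)).filter (fun k => delay n s k = y k))).card ≤
      (Finset.Ico 1 (2 * T + 1)).card := by
    apply card_le_card_of_injOn (fun p => p.2)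
    · intro p hp
      obtain ⟨h1, h2, h3, h4⟩ := key p hp
      simp only [coe_Ico, Set.mem_Ico]
      refine ⟨h2, ?_⟩
      rcases hT with hT | hT
      · by_contra h
        obtain ⟨d, hd⟩ := Nat.exists_eq_add_of_le (show T ≤ p.2 by omega)
        have h5 := index_mono hy T d
        rw [← hd, hT] at h5
        omega
      · omega
    · intro p hp q hq hpq
      obtain ⟨_, _, _, h4⟩ := key p hp
      obtain ⟨_, _, _, h4'⟩ := key q hq
      simp only at hpq
      have : p.1 = q.1 := by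
        rw [hpq] at h4
        omega
      rcases p with ⟨a, b⟩
      rcases q with ⟨c, d⟩
      simp only at this hpq
      subst this; subst hpq; rfl
  rw [Nat.card_Ico] at hcard
  omega

/-- an inequality between the means -/
lemma amgm (T : ℕ) (x : ℕ → ℝ) (hx : ∀ s, 0 < x s) (hprod : 1 ≤ ∏ s ∈ range T, x s) :
    (T : ℝ) ≤ ∑ s ∈ range T, x s := by
  have h1 : ∑ s ∈ range T, Real.log (x s) ≤ ∑ s ∈ range T, (x s - 1) :=
    sum_le_sum fun s _ => Real.log_le_sub_one_of_pos (hx s)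
  rw [← Real.log_prod (fun s _ => (hx s).ne')] at h1
  have h2 := Real.log_nonneg hprod
  rw [sum_sub_distrib] at h1
  simp only [sum_const, card_range, nsmul_eq_mul, mul_one] at h1
  linarith

lemma weighted {lam : ℝ} (h0 : 0 < lam) (h1 : lam < 1) (T : ℕ) (hT : 1 ≤ T) (c : ℕ → ℕ)
    (hc : ∑ s ∈ range T, c s ≤ 2 * T) :
    lam ^ 2 ≤ ∑ s ∈ range T, 1 / ((s : ℝ) + 1) * lam ^ c s := by
  have hTp : (0 : ℝ) < T := by exact_mod_cast hT
  have hl2 : 0 < lam ^ 2 := by positivity
  have h := amgm T (fun s => (T : ℝ) / lam ^ 2 * (1 / ((s : ℝ) + 1) * lam ^ c s))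
    (fun s => by positivity) (by
      rw [prod_mul_distrib, prod_mul_distrib, prod_const, card_range, prod_pow_eq_pow_sum]
      have e1 : ∏ s ∈ range T, (1 / ((s : ℝ) + 1)) = 1 / (T.factorial : ℝ) := by
        rw [← prod_range_add_one_eq_factorial]
        push_cast
        rw [prod_div_distrib, prod_const_one]
      rw [e1, div_pow, ← pow_mul]
      have hf : (T.factorial : ℝ) ≤ (T : ℝ) ^ T := by exact_mod_cast Nat.factorial_le_pow T
      have hfp : (0 : ℝ) < T.factorial := by exact_mod_cast Nat.factorial_pos T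
      have hp : lam ^ (2 * T) ≤ lam ^ (∑ s ∈ range T, c s) :=
        pow_le_pow_of_le_one h0.le h1.le hc
      have hpp : 0 < lam ^ (2 * T) := by positivity
      have e2 : (T : ℝ) ^ T / lam ^ (2 * T) * (1 / (T.factorial : ℝ) * lam ^ (∑ s ∈ range T, c s)) =
          ((T : ℝ) ^ T / T.factorial) * (lam ^ (∑ s ∈ range T, c s) / lam ^ (2 * T)) := by
        field_simp
      rw [e2]
      have a1 : 1 ≤ (T : ℝ) ^ T / T.factorial := by rw [le_div_iff₀ hfp]; linarith
      have a2 : 1 ≤ lam ^ (∑ s ∈ range T, c s) / lam ^ (2 * T) := by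
        rw [le_div_iff₀ hpp]; linarith
      nlinarith)
  rw [← mul_sum] at h
  have h3 : (T : ℝ) * lam ^ 2 ≤ T * ∑ s ∈ range T, 1 / ((s : ℝ) + 1) * lam ^ c s := by
    have := mul_le_mul_of_nonneg_right h hl2.le
    have e : (T : ℝ) / lam ^ 2 * (∑ s ∈ range T, 1 / ((s : ℝ) + 1) * lam ^ c s) * lam ^ 2 =
        T * ∑ s ∈ range T, 1 / ((s : ℝ) + 1) * lam ^ c s := by
      field_simp
    rw [e] at this
    exact this
  exact le_of_mul_le_mul_left h3 hTp

/-- the guarantee of the logarithmic delay, before the normalization -/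
theorem log_lower {lam : ℝ} (h0 : 0 < lam) (h1 : lam < 1) {n : ℕ} (hn : 1 ≤ n) (y : ℕ → ℤ)
    (hy : IsSearch n 1 y) :
    lam ^ 2 ≤ ∑ s ∈ range n, 1 / ((s : ℝ) + 1) * win n lam (delay n s) y := by
  classical
  have hex : ∃ T, 1 ≤ T ∧ (y T = 1 ∨ T = n) := ⟨n, hn, Or.inr rfl⟩
  obtain ⟨T, ⟨hT1, hT2⟩, hT3⟩ : ∃ T, (1 ≤ T ∧ (y T = 1 ∨ T = n)) ∧
      ∀ k, k < T → ¬ (1 ≤ k ∧ (y k = 1 ∨ k = n)) :=
    ⟨Nat.find hex, Nat.find_spec hex, fun k hk => Nat.find_min hex hk⟩
  have hTn : T ≤ n := by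
    by_contra h
    exact hT3 n (by omega) ⟨hn, Or.inr rfl⟩
  have hc := count_le hy T hT1 hTn (fun k hk hkT hk1 => hT3 k hkT ⟨hk, Or.inl hk1⟩) hT2
  refine (weighted h0 h1 T hT1 _ hc).trans ?_
  have hsub : range T ⊆ range n := range_subset_range.2 hTn
  refine le_trans (le_of_eq ?_) (sum_le_sum_of_subset_of_nonneg hsub
    (fun s _ _ => mul_nonneg (by positivity) (win_nonneg h0 _ _)))
  apply sum_congr rfl
  intro s _
  rw [win_delay_gen hn]

end Pool.Agent.T9h92.INF
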