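import Pool.Agent.T9h92.INF.Ord2

set_option autoImplicit false

open Finset Pool.Agent.H428I

namespace Pool.Agent.T9h92.INF

lemma bits_avgW (lam : ℝ) (L : ℕ) (W : Finset ℕ) (hW : W ⊆ range L) (g : ℕ → Bool) :
    ∑ e : Fin L → Bool, (1 / 2 : ℝ) ^ L *
      lam ^ (W.filter (fun j => ext e j = g j)).card = ((1 + lam) / 2) ^ W.card := by
  classical
  have h1 : ∀ e : Fin L → Bool, (1 / 2 : ℝ) ^ L *
      lam ^ (W.filter (fun j => ext e j = g j)).card =
      ∏ j : Fin L, ((1 / 2 : ℝ) *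
        (if (j : ℕ) ∈ W ∧ e j = g j then lam else 1)) := by
    intro e
    rw [prod_mul_distrib, prod_const, card_univ, Fintype.card_fin]
    congr 1
    have e1 : W.filter (fun j => ext e j = g j) =
        (range L).filter (fun j => j ∈ W ∧ ext e j = g j) := by
      ext j
      simp only [mem_filter]
      constructor
      · rintro ⟨h1, h2⟩
        exact ⟨hW h1, h1, h2⟩
      · rintro ⟨_, h1, h2⟩
        exact ⟨h1, h2⟩
    rw [e1, prod_filter_pow, ← Fin.prod_univ_eq_prod_range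
      (fun j => if j ∈ W ∧ ext e j = g j then lam else 1) L]
    apply prod_congr rfl
    intro j _
    have : ext e (j : ℕ) = e j := by unfold ext; rw [dif_pos j.2]
    simp only [this]
  simp only [h1]
  have h2 := Finset.prod_univ_sum (fun _ : Fin L => (Finset.univ : Finset Bool))
    (fun (j : Fin L) (b : Bool) => ((1 / 2 : ℝ) *
        (if (j : ℕ) ∈ W ∧ b = g j then lam else 1)))
  rw [Fintype.piFinset_univ] at h2
  rw [← h2]
  have h3 : ∀ j : Fin L, ∑ b : Bool, ((1 / 2 : ℝ) *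
        (if (j : ℕ) ∈ W ∧ b = g j then lam else 1)) =
      if (j : ℕ) ∈ W then (1 + lam) / 2 else 1 := by
    intro j
    rw [Fintype.sum_bool]
    by_cases h : (j : ℕ) ∈ W
    · cases hg : g j <;> simp [h] <;> ring
    · simp only [h, false_and, if_false]
      norm_num
  simp only [h3]
  rw [Fin.prod_univ_eq_prod_range (fun j => if j ∈ W then (1 + lam) / 2 else 1) L,
    ← prod_filter_pow]
  congr 2
  ext j
  rw [mem_filter]
  exact ⟨fun h => h.2, fun h => ⟨hW h, h⟩⟩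

/-- the payoff of the run `i`, averaged over the delays of its sweeps -/
noncomputable def avg (lam : ℝ) (n L : ℕ) (x : ℕ → ℤ) (i : ℕ) : ℝ :=
  ∑ e : Fin L → Bool, (1 / 2 : ℝ) ^ L * win n lam x (zpath L i (ext e))

lemma avg_le {lam : ℝ} {n L i : ℕ} {x : ℕ → ℤ} {c : ℝ}
    (h : ∀ e : Fin L → Bool, win n lam x (zpath L i (ext e)) ≤ c) : avg lam n L x i ≤ c := by
  unfold avg
  calc ∑ e : Fin L → Bool, (1 / 2 : ℝ) ^ L * win n lam x (zpath L i (ext e))
      ≤ ∑ _e : Fin L → Bool, (1 / 2 : ℝ) ^ L * c :=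
        sum_le_sum fun e _ => mul_le_mul_of_nonneg_left (h e) (by positivity)
    _ = c := by
        rw [sum_const, card_univ, Fintype.card_fun, Fintype.card_fin, Fintype.card_bool,
          nsmul_eq_mul]
        push_cast
        rw [← mul_assoc, ← mul_pow]
        norm_num

lemma pair {lam : ℝ} (h0 : 0 < lam) (h1 : lam < 1) {n L i i' : ℕ} {x : ℕ → ℤ}
    (hx : IsInfil n x) {T : ℕ} (hT : x T = n + 1) (hTlt : ∀ k, k < T → x k ≠ n + 1)
    (hLT : 16 ^ L ≤ T) (hii : i < i') (hi' : i' < L) (W : Finset ℕ)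
    (hW : ∀ r ∈ W, ∃ s, r = s + 1 ∧ i' - i + 1 ≤ 256 ^ s ∧ 2 * (s + 2) ^ 2 ≤ i' - i)
    (c : ℕ) (hc : 2 * c ≤ i' - i) :
    avg lam n L x i ≤ ((1 + lam) / 2) ^ W.card ∨ avg lam n L x i' ≤ lam ^ c := by
  classical
  by_cases hall : ∀ r ∈ W, x (16 ^ (i + r ^ 2)) ≤ hgt i r
  · left
    have hgood : ∀ r, ∃ (b : Bool) (t : ℕ), r ∈ W →
        (16 ^ (i + r ^ 2) ≤ t ∧ t ≤ 2 * 16 ^ (i + r ^ 2) ∧
          x t = swg (hgt i r) ((16 ^ (i + r ^ 2) : ℕ) : ℤ) b t) := by
      intro r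
      by_cases hr : r ∈ W
      · obtain ⟨b, t, h4⟩ := sweepG hx (16 ^ (i + r ^ 2)) (hgt i r) (one_le_pow' _)
          (hgt_bounds i r).1 (hgt_bounds i r).2 (hall r hr)
        exact ⟨b, t, fun _ => h4⟩
      · exact ⟨true, 0, fun h => absurd h hr⟩
    choose g tau hg using hgood
    have hWL : ∀ r ∈ W, i + (r + 1) ^ 2 ≤ L := by
      intro r hr
      obtain ⟨s, rfl, _, h4⟩ := hW r hr
      rw [show s + 1 + 1 = s + 2 by ring]
      omega
    have hsub : W ⊆ range L := by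
      intro r hr
      have h4 := hWL r hr
      rw [mem_range]
      nlinarith
    rw [← bits_avgW lam L W hsub g]
    unfold avg
    apply sum_le_sum
    intro e _
    apply mul_le_mul_of_nonneg_left _ (by positivity)
    exact win_sweepG h0 h1 (ext e) hT hTlt W g tau (fun r hr => hg r hr) hWL hLT
  · right
    push Not at hall
    obtain ⟨r, hr, hr2⟩ := hall
    obtain ⟨s, rfl, h3, h4⟩ := hW r hr
    have h5 : (s + 1) ^ 2 ≤ (s + 2) ^ 2 := Nat.pow_le_pow_left (by omega) 2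
    have h6 := compare i i' s (by omega) h3
    have hex : ∃ t, fro i' t < x t := ⟨_, h6.trans_lt hr2⟩
    obtain ⟨P, hP1, hP2⟩ : ∃ P, fro i' P < x P ∧ ∀ k, k < P → ¬ fro i' k < x k :=
      ⟨Nat.find hex, Nat.find_spec hex, fun k hk => Nat.find_min hex hk⟩
    have hPle : P ≤ 16 ^ (i + (s + 1) ^ 2) := by
      by_contra h
      exact hP2 _ (by omega) (h6.trans_lt hr2)
    have hPi : P ≤ 16 ^ i' := hPle.trans (Nat.pow_le_pow_right (by norm_num) (by omega))
    have hPT : P ≤ T :=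
      (hPi.trans (Nat.pow_le_pow_right (by norm_num) hi'.le)).trans hLT
    have hlog : Nat.log 16 P ≤ i + (s + 1) ^ 2 := by
      have := Nat.log_mono_right (b := 16) hPle
      rwa [Nat.log_pow (by norm_num)] at this
    refine avg_le fun e => ?_
    refine (win_frontG h0 h1 (ext e) hx hT hTlt P hP1 (fun t ht => not_lt.1 (hP2 t ht)) hPT hPi
      hi'.le).trans ?_
    apply pow_le_pow_of_le_one h0.le h1.le
    have := kap_gt (i' - Nat.log 16 P)
    omega

/-- the decay of the payoffs of two runs at distance `D` -/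
noncomputable def dec (q : ℝ) (D : ℕ) : ℝ := q ^ (Nat.sqrt D / 4 - 2)

lemma pair' {lam : ℝ} (h0 : 0 < lam) (h1 : lam < 1) {n L i i' : ℕ} {x : ℕ → ℤ}
    (hx : IsInfil n x) {T : ℕ} (hT : x T = n + 1) (hTlt : ∀ k, k < T → x k ≠ n + 1)
    (hLT : 16 ^ L ≤ T) (hii : i < i') (hi' : i' < L) :
    avg lam n L x i ≤ dec ((1 + lam) / 2) (i' - i) ∨
      avg lam n L x i' ≤ dec ((1 + lam) / 2) (i' - i) := by
  have hq0 : 0 < (1 + lam) / 2 := by linarith
  have hq1 : (1 + lam) / 2 < 1 := by linarith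
  set D := i' - i with hD
  set K := Nat.sqrt D with hK
  have hK1 : K ^ 2 ≤ D := Nat.sqrt_le' D
  have hK2 : D < (K + 1) ^ 2 := Nat.lt_succ_sqrt' D
  set W := Finset.Ico (K / 4 + 2) (K / 2) with hWd
  have hcard : W.card = K / 2 - (K / 4 + 2) := Nat.card_Ico _ _
  have hKK : K ≤ K ^ 2 := by
    rw [sq]
    exact Nat.le_mul_self K
  have h := pair h0 h1 hx hT hTlt hLT hii hi' W (by
    intro r hr
    rw [hWd, mem_Ico] at hr
    refine ⟨r - 1, by omega, ?_, ?_⟩
    · have a1 : K + 1 ≤ 2 ^ K := Nat.lt_two_pow_self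
      have a2 : (K + 1) ^ 2 ≤ (2 ^ K) ^ 2 := Nat.pow_le_pow_left a1 2
      have a3 : (2 ^ K) ^ 2 = 4 ^ K := by rw [← pow_mul, mul_comm, pow_mul]; norm_num
      have a4 : 4 ^ K ≤ 4 ^ (4 * (r - 1)) := Nat.pow_le_pow_right (by norm_num) (by omega)
      have a5 : 4 ^ (4 * (r - 1)) = 256 ^ (r - 1) := by rw [pow_mul]; norm_num
      omega
    · have b1 : r - 1 + 2 ≤ K / 2 := by omega
      have b2 : 2 * (r - 1 + 2) ≤ K := by omega
      have b3 : (2 * (r - 1 + 2)) ^ 2 ≤ K ^ 2 := Nat.pow_le_pow_left b2 2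
      have b4 : (2 * (r - 1 + 2)) ^ 2 = 4 * (r - 1 + 2) ^ 2 := by ring
      omega) W.card (by rw [hcard]; omega)
  have hle : K / 4 - 2 ≤ W.card := by rw [hcard]; omega
  have c1 : ((1 + lam) / 2) ^ W.card ≤ dec ((1 + lam) / 2) D :=
    pow_le_pow_of_le_one hq0.le hq1.le hle
  have c2 : lam ^ W.card ≤ ((1 + lam) / 2) ^ W.card :=
    pow_le_pow_left₀ h0.le (by linarith) _
  rcases h with h | h
  · exact Or.inl (h.trans c1)
  · exact Or.inr ((h.trans c2).trans c1)

lemma sum_pair (a f : ℕ → ℝ) (hf0 : ∀ D, 0 ≤ f D) (hf : Summable f) (hf1 : f 0 = 1) (L : ℕ)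
    (ha1 : ∀ i, a i ≤ 1)
    (hpair : ∀ i i', i < i' → i' < L → a i ≤ f (i' - i) ∨ a i' ≤ f (i' - i)) :
    ∑ i ∈ range L, a i ≤ 2 * ∑' D, f D := by
  have hpart : ∀ N, ∑ j ∈ range N, f j ≤ ∑' D, f D := fun N =>
    hf.sum_le_tsum _ fun j _ => hf0 j
  rcases Nat.eq_zero_or_pos L with rfl | hL
  · have := hpart 0
    simp only [range_zero, sum_empty] at *
    linarith
  obtain ⟨m, hm, hmax⟩ := exists_max_image (range L) a ⟨0, mem_range.2 hL⟩
  rw [mem_range] at hm
  have hlow : ∀ i, i < m → a i ≤ f (m - i) := by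
    intro i hi
    rcases hpair i m hi hm with h | h
    · exact h
    · exact (hmax i (mem_range.2 (by omega))).trans h
  have hhigh : ∀ i, m ≤ i → i < L → a i ≤ f (i - m) := by
    intro i hi hiL
    rcases Nat.eq_or_lt_of_le hi with rfl | hlt
    · rw [Nat.sub_self, hf1]
      exact ha1 _
    · rcases hpair m i hlt hiL with h | h
      · exact (hmax i (mem_range.2 hiL)).trans h
      · exact h
  rw [range_eq_Ico, ← sum_Ico_consecutive a (Nat.zero_le m) hm.le, ← range_eq_Ico]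
  have s1 : ∑ i ∈ range m, a i ≤ ∑' D, f D := by
    calc ∑ i ∈ range m, a i ≤ ∑ i ∈ range m, f (m - i) :=
          sum_le_sum fun i hi => hlow i (mem_range.1 hi)
      _ = ∑ i ∈ range m, f (m - 1 - i + 1) := by
          apply sum_congr rfl
          intro i hi
          rw [mem_range] at hi
          congr 1
          omega
      _ = ∑ j ∈ range m, f (j + 1) := sum_range_reflect (fun j => f (j + 1)) m
      _ ≤ ∑ j ∈ range (m + 1), f j := by
          rw [sum_range_succ']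
          linarith [hf0 0]
      _ ≤ ∑' D, f D := hpart _
  have s2 : ∑ i ∈ Ico m L, a i ≤ ∑' D, f D := by
    calc ∑ i ∈ Ico m L, a i ≤ ∑ i ∈ Ico m L, f (i - m) :=
          sum_le_sum fun i hi => hhigh i (mem_Ico.1 hi).1 (mem_Ico.1 hi).2
      _ = ∑ j ∈ range (L - m), f j := by
          rw [sum_Ico_eq_sum_range]
          apply sum_congr rfl
          intro j _
          congr 1
          omega
      _ ≤ ∑' D, f D := hpart _
  linarith

lemma dec_summable {q : ℝ} (hq0 : 0 < q) (hq1 : q < 1) : Summable (dec q) := by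
  have hs := summable_pow_mul_geometric_of_norm_lt_one 4
    (r := q) (by rw [Real.norm_eq_abs, abs_of_pos hq0]; exact hq1)
  obtain ⟨M, hM⟩ := hs.tendsto_atTop_zero.bddAbove_range
  have hM' : ∀ a : ℕ, (a : ℝ) ^ 4 * q ^ a ≤ M := fun a => hM ⟨a, rfl⟩
  have hM0 : 0 ≤ M := by
    have := hM' 0
    norm_num at this
    exact this
  have hsum : Summable (fun D : ℕ => 256 * M / q ^ 3 * (1 / ((D : ℝ) + 1) ^ 2)) := by
    apply Summable.mul_left
    have := (summable_nat_add_iff 1).2 (Real.summable_one_div_nat_pow.2 (one_lt_two))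
    simpa using this
  refine Summable.of_nonneg_of_le (fun D => (pow_pos hq0 _).le) (fun D => ?_) hsum
  set a := Nat.sqrt D / 4 with ha
  have h1 : D + 1 ≤ 16 * (a + 1) ^ 2 := by
    have h2 : D < (Nat.sqrt D + 1) ^ 2 := Nat.lt_succ_sqrt' D
    have h3 : Nat.sqrt D + 1 ≤ 4 * (a + 1) := by omega
    have h4 : (Nat.sqrt D + 1) ^ 2 ≤ (4 * (a + 1)) ^ 2 := Nat.pow_le_pow_left h3 2
    have h5 : (4 * (a + 1)) ^ 2 = 16 * (a + 1) ^ 2 := by ring
    omega
  have h2 : ((D : ℝ) + 1) ≤ 16 * ((a : ℝ) + 1) ^ 2 := by exact_mod_cast h1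
  have h3 : ((D : ℝ) + 1) ^ 2 ≤ 256 * ((a : ℝ) + 1) ^ 4 := by
    have := pow_le_pow_left₀ (by positivity : (0 : ℝ) ≤ (D : ℝ) + 1) h2 2
    calc ((D : ℝ) + 1) ^ 2 ≤ (16 * ((a : ℝ) + 1) ^ 2) ^ 2 := this
      _ = 256 * ((a : ℝ) + 1) ^ 4 := by ring
  have h4 := hM' (a + 1)
  push_cast at h4
  have h5 : dec q D * q ^ 3 ≤ q ^ (a + 1) := by
    unfold dec
    rw [← pow_add]
    exact pow_le_pow_of_le_one hq0.le hq1.le (by omega)
  have hq3 : 0 < q ^ 3 := by positivity
  rw [mul_one_div, div_div, le_div_iff₀ (by positivity)]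
  have hdec : 0 ≤ dec q D := (pow_pos hq0 _).le
  calc dec q D * (q ^ 3 * ((D : ℝ) + 1) ^ 2) = (dec q D * q ^ 3) * ((D : ℝ) + 1) ^ 2 := by ring
    _ ≤ q ^ (a + 1) * (256 * ((a : ℝ) + 1) ^ 4) :=
        mul_le_mul h5 h3 (by positivity) (by positivity)
    _ = 256 * (((a : ℝ) + 1) ^ 4 * q ^ (a + 1)) := by ring
    _ ≤ 256 * M := by linarith

/-- the constant of the upper bound -/
noncomputable def cst (lam : ℝ) : ℝ := 2 * ∑' D, dec ((1 + lam) / 2) D

lemma two_le_cst {lam : ℝ} (h0 : 0 < lam) (h1 : lam < 1) : 2 ≤ cst lam := by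
  have hq0 : 0 < (1 + lam) / 2 := by linarith
  have hq1 : (1 + lam) / 2 < 1 := by linarith
  have h : ∑ j ∈ range 1, dec ((1 + lam) / 2) j ≤ ∑' D, dec ((1 + lam) / 2) D :=
    (dec_summable hq0 hq1).sum_le_tsum (range 1) (fun j _ => (pow_pos hq0 _).le)
  have h2 : dec ((1 + lam) / 2) 0 = 1 := by simp [dec]
  rw [sum_range_one, h2] at h
  unfold cst
  linarith

/-- **the guarantee of the searcher** -/
theorem order_search {lam : ℝ} (h0 : 0 < lam) (h1 : lam < 1) {n L : ℕ} (hL : 1 ≤ L)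
    (hn : 16 ^ L ≤ n) (x : ℕ → ℤ) (hx : IsInfil n x) :
    ∑ i : Fin L, ∑ e : Fin L → Bool, 1 / ((L : ℝ) * 2 ^ L) * win n lam x (zpath L i (ext e)) ≤
      cst lam / L := by
  classical
  have hLp : (0 : ℝ) < L := by exact_mod_cast hL
  have hq0 : 0 < (1 + lam) / 2 := by linarith
  have hq1 : (1 + lam) / 2 < 1 := by linarith
  have hds := dec_summable hq0 hq1
  have hd0 : ∀ D, 0 ≤ dec ((1 + lam) / 2) D := fun D => (pow_pos hq0 _).le
  have hsum : ∑ i : Fin L, ∑ e : Fin L → Bool,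
      1 / ((L : ℝ) * 2 ^ L) * win n lam x (zpath L i (ext e)) =
      1 / (L : ℝ) * ∑ i ∈ range L, avg lam n L x i := by
    rw [← Fin.sum_univ_eq_sum_range (fun i => avg lam n L x i) L, mul_sum]
    apply sum_congr rfl
    intro i _
    unfold avg
    rw [mul_sum]
    apply sum_congr rfl
    intro e _
    rw [one_div_pow]
    field_simp
  rw [hsum]
  have key : ∑ i ∈ range L, avg lam n L x i ≤ cst lam := by
    by_cases hT : ∃ T, x T = (n : ℤ) + 1
    · obtain ⟨T, hT1, hT2⟩ : ∃ T, x T = (n : ℤ) + 1 ∧ ∀ k, k < T → x k ≠ (n : ℤ) + 1 :=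
        ⟨Nat.find hT, Nat.find_spec hT, fun k hk => Nat.find_min hT hk⟩
      have hLT : 16 ^ L ≤ T := by
        have h3 := infil_add hx 0 T
        rw [zero_add, hT1, hx.1] at h3
        omega
      exact sum_pair _ _ hd0 hds (by simp [dec]) L
        (fun i => avg_le fun e => win_le_one h0 h1 _ _)
        (fun i i' hii hi' => pair' h0 h1 hx hT1 hT2 hLT hii hi')
    · have h3 : ∀ y : ℕ → ℤ, win n lam x y = 0 := by
        intro y
        unfold win
        rw [dif_neg hT]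
      unfold avg cst
      simp only [h3, mul_zero, sum_const_zero]
      have h4 : (0 : ℝ) ≤ ∑' D, dec ((1 + lam) / 2) D := tsum_nonneg hd0
      linarith
  rw [one_div, mul_comm, ← div_eq_mul_inv]
  exact div_le_div_of_nonneg_right key hLp.le

end Pool.Agent.T9h92.INF
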