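import Pool.Agent.H428I.Infil

set_option autoImplicit false

open Finset Pool.Agent.H428I

namespace Pool.Agent.T9h92.INF

lemma win_eq {n : ℕ} {lam : ℝ} {x y : ℕ → ℤ} {T : ℕ} (hT : x T = n + 1)
    (hlt : ∀ k, k < T → x k ≠ n + 1) :
    win n lam x y = lam ^ ((Finset.Ico 1 T).filter (fun k => x k = y k)).card := by
  classical
  unfold win
  have h : ∃ T, x T = n + 1 := ⟨T, hT⟩
  rw [dif_pos h]
  have : Nat.find h = T := (Nat.find_eq_iff h).2 ⟨hT, fun k hk => hlt k hk⟩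
  rw [this]

lemma win_nonneg {n : ℕ} {lam : ℝ} (h0 : 0 < lam) (x y : ℕ → ℤ) : 0 ≤ win n lam x y := by
  classical
  unfold win
  split_ifs
  · exact (pow_pos h0 _).le
  · exact le_refl _

lemma win_le_one {n : ℕ} {lam : ℝ} (h0 : 0 < lam) (h1 : lam < 1) (x y : ℕ → ℤ) :
    win n lam x y ≤ 1 := by
  classical
  unfold win
  split_ifs
  · exact pow_le_one₀ h0.le h1.le
  · exact zero_le_one

/-- a lower bound for the number of the catches gives an upper bound for the winning probability -/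
lemma win_le_pow {n : ℕ} {lam : ℝ} (h0 : 0 < lam) (h1 : lam < 1) {x y : ℕ → ℤ} {T : ℕ}
    (hT : x T = n + 1) (hlt : ∀ k, k < T → x k ≠ n + 1) (A : Finset ℕ)
    (hA : ∀ k ∈ A, 1 ≤ k ∧ k < T ∧ x k = y k) {b : ℕ} (hb : b ≤ A.card) :
    win n lam x y ≤ lam ^ b := by
  rw [win_eq hT hlt]
  apply pow_le_pow_of_le_one h0.le h1.le
  refine hb.trans (card_le_card fun k hk => ?_)
  obtain ⟨h1, h2, h3⟩ := hA k hk
  simp [mem_filter, mem_Ico, h1, h2, h3]

end Pool.Agent.T9h92.INF
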