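import Pool.Agent.T9h92.INF.Basic

set_option autoImplicit false

open Finset Pool.Agent.H428I

namespace Pool.Agent.T9h92.INF

open Classical in
/-- the factor of one time unit: `lam` if `p` and `1` otherwise -/
noncomputable def ee (lam : ℝ) (p : Prop) : ℝ := if p then lam else 1

lemma ee_true {lam : ℝ} {p : Prop} (h : p) : ee lam p = lam := if_pos h
lemma ee_false {lam : ℝ} {p : Prop} (h : ¬ p) : ee lam p = 1 := if_neg h

lemma ee_pos {lam : ℝ} (h0 : 0 < lam) (p : Prop) : 0 < ee lam p := by
  unfold ee; split_ifs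
  · exact h0
  · exact one_pos

lemma ee_le {lam : ℝ} (h1 : lam < 1) (p : Prop) : ee lam p ≤ 1 := by
  unfold ee; split_ifs
  · exact h1.le
  · exact le_refl _

lemma le_ee {lam : ℝ} (h1 : lam < 1) (p : Prop) : lam ≤ ee lam p := by
  unfold ee; split_ifs
  · exact le_refl _
  · exact h1.le

lemma pow_card_filter (lam : ℝ) (S : Finset ℕ) (p : ℕ → Prop) [DecidablePred p] :
    lam ^ (S.filter p).card = ∏ k ∈ S, ee lam (p k) := by
  induction S using Finset.induction_on with
  | empty => simp
  | insert a S ha ih =>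
    rw [prod_insert ha, filter_insert, ← ih]
    by_cases h : p a
    · rw [if_pos h, card_insert_of_notMem (by simp [ha]), ee_true h, pow_succ, mul_comm]
    · rw [if_neg h, ee_false h, one_mul]

/-- start in cell 1, visit the cells of the list, then stay in the target 5 -/
def pth (l : List ℤ) : ℕ → ℤ
  | 0 => 1
  | (k + 1) => l.getD k 5

/-- start in cell 1, visit the cells `a` and `b`, then stay in cell 4 -/
def sp (a b : ℤ) : ℕ → ℤ
  | 0 => 1
  | 1 => a
  | 2 => b
  | (_ + 3) => 4

lemma pth_zero (l : List ℤ) : pth l 0 = 1 := rfl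
lemma pth_succ (l : List ℤ) (k : ℕ) : pth l (k + 1) = l.getD k 5 := rfl

lemma win_pth (lam : ℝ) (l : List ℤ) (hl : ∀ c ∈ l, c ≠ 5) (y : ℕ → ℤ) :
    win 4 lam (pth l) y = ∏ k ∈ range l.length, ee lam (y (k + 1) = l.getD k 5) := by
  have hT : pth l (l.length + 1) = ((4 : ℕ) : ℤ) + 1 := by
    rw [pth_succ, List.getD_eq_default _ _ le_rfl]
    norm_num
  have hlt : ∀ k, k < l.length + 1 → pth l k ≠ ((4 : ℕ) : ℤ) + 1 := by
    intro k hk
    rcases k with _ | k
    · rw [pth_zero]; norm_num
    · have hk' : k < l.length := by omega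
      rw [pth_succ, List.getD_eq_getElem _ _ hk']
      have := hl _ (List.getElem_mem (l := l) (n := k) hk')
      push_cast
      exact fun h => this (by linarith)
  rw [win_eq hT hlt, pow_card_filter, prod_Ico_eq_prod_range, Nat.add_sub_cancel]
  apply prod_congr rfl
  intro k _
  rw [add_comm 1 k, pth_succ]
  congr 1
  exact propext ⟨fun h => h.symm, fun h => h.symm⟩

lemma win_le_three {lam : ℝ} (h0 : 0 < lam) (h1 : lam < 1) {n : ℕ} {x y : ℕ → ℤ} {T : ℕ}
    (hT : x T = n + 1) (hlt : ∀ k, k < T → x k ≠ n + 1) (hT4 : 4 ≤ T)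
    (hc : x (T - 1) = y (T - 1)) :
    win n lam x y ≤ lam * (ee lam (x 1 = y 1) * ee lam (x 2 = y 2)) := by
  rw [win_eq hT hlt]
  have hsub : ({T - 1, 1, 2} : Finset ℕ) ⊆ Ico 1 T := by
    intro k hk
    simp only [mem_insert, mem_singleton] at hk
    rw [mem_Ico]
    omega
  calc lam ^ ((Ico 1 T).filter (fun k => x k = y k)).card
      ≤ lam ^ ((({T - 1, 1, 2} : Finset ℕ)).filter (fun k => x k = y k)).card :=
        pow_le_pow_of_le_one h0.le h1.le (card_le_card (filter_subset_filter _ hsub))
    _ = lam * (ee lam (x 1 = y 1) * ee lam (x 2 = y 2)) := by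
        rw [pow_card_filter, prod_insert, prod_insert, prod_singleton, ee_true hc]
        · simp
        · simp only [mem_insert, mem_singleton]; omega

end Pool.Agent.T9h92.INF
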