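import Pool.Agent.T9h92.INF.Four

set_option autoImplicit false

open Finset Pool.Agent.H428I

namespace Pool.Agent.T9h92.INF

/-- the step from the masses at time 2 to the payoff -/
lemma core {lam : ℝ} (h0 : 0 < lam) (h1 : lam < 1) {Z P Q R : ℝ} (hZ : 0 ≤ Z) (hP : 0 ≤ P)
    (hQ : 0 ≤ Q) (hR : 0 ≤ R) (hRQ : lam * Q ≤ R) (hRP : lam * P ≤ R) (hRZ : lam * Z ≤ R)
    (hQP : lam * P ≤ Q) (hQZ : lam * Z ≤ Q) (hPZ : lam * Z ≤ P) (a b c : ℤ)
    (ha : a = 1 ∨ a = 2 ∨ a = 3 ∨ a = 4) (hb : b = 1 ∨ b = 2 ∨ b = 3 ∨ b = 4)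
    (hc : c = 1 ∨ c = 2 ∨ c = 3 ∨ c = 4) :
    lam * (Z + P + Q + R) ≤ lam * Z * (ee lam (a = 1) * ee lam (b = 2) * ee lam (c = 3)) +
      P * (ee lam (a = 2) * ee lam (b = 3) * ee lam (c = 4)) +
      Q * (ee lam (a = 3) * ee lam (b = 4)) + R * ee lam (a = 4) := by
  have hp : 0 < 1 - lam := by linarith
  have k1 := mul_nonneg hp.le (sub_nonneg.2 hRQ)
  have k2 := mul_nonneg hp.le (sub_nonneg.2 hRP)
  have k3 := mul_nonneg hp.le (sub_nonneg.2 hRZ)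
  have k4 := mul_nonneg hp.le (sub_nonneg.2 hQP)
  have k5 := mul_nonneg hp.le (sub_nonneg.2 hQZ)
  have k6 := mul_nonneg hp.le (sub_nonneg.2 hPZ)
  have m1 : 0 ≤ lam * (1 - lam) * Z := by positivity
  have m2 : 0 ≤ lam * (1 - lam) * P := by positivity
  have m3 : 0 ≤ lam * (1 - lam) * Q := by positivity
  have m4 : 0 ≤ lam * (1 - lam) * (1 - lam) * Z := by positivity
  have m5 : 0 ≤ lam * (1 - lam) * (1 - lam) * P := by positivity
  have m6 : 0 ≤ lam * lam * (1 - lam) * (1 - lam) * Z := by positivity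
  have m7 : 0 ≤ (1 - lam) * R := by positivity
  have m8 : 0 ≤ (1 - lam) * Q := by positivity
  have m9 : 0 ≤ (1 - lam) * P := by positivity
  rcases ha with rfl | rfl | rfl | rfl <;> rcases hb with rfl | rfl | rfl | rfl <;>
    rcases hc with rfl | rfl | rfl | rfl <;> (unfold ee; norm_num; nlinarith)

lemma core23 {lam : ℝ} (h0 : 0 < lam) (h1 : lam < 1) (a b c : ℤ)
    (ha : a = 1 ∨ a = 2 ∨ a = 3 ∨ a = 4) (hb : b = 1 ∨ b = 2 ∨ b = 3 ∨ b = 4)
    (hc : c = 1 ∨ c = 2 ∨ c = 3 ∨ c = 4) :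
    lam * ((1 + lam) ^ 2 * (2 + lam)) ≤
      lam * (1 + lam) * (ee lam (a = 1) * ee lam (b = 2) * ee lam (c = 3)) +
      (2 + lam) * (ee lam (a = 2) * ee lam (b = 3) * ee lam (c = 4)) +
      (1 + 2 * lam) * (ee lam (a = 3) * ee lam (b = 4)) +
      ((1 + lam) ^ 2 * lam ^ 2) * ee lam (a = 4) := by
  have hp : 0 < 1 - lam := by linarith
  have m1 : 0 ≤ lam * (1 - lam) := by positivity
  have m2 : 0 ≤ lam ^ 2 * (1 - lam) := by positivity
  have m3 : 0 ≤ lam ^ 3 * (1 - lam) := by positivity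
  have m4 : 0 ≤ lam ^ 4 * (1 - lam) := by positivity
  have m5 : 0 < lam ^ 2 := by positivity
  have m6 : 0 < lam ^ 3 := by positivity
  have m7 : 0 < lam ^ 4 := by positivity
  have m8 : 0 < lam ^ 5 := by positivity
  rcases ha with rfl | rfl | rfl | rfl <;> rcases hb with rfl | rfl | rfl | rfl <;>
    rcases hc with rfl | rfl | rfl | rfl <;> (unfold ee; norm_num; nlinarith)

end Pool.Agent.T9h92.INF
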