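import Pool.Agent.T9h92.INF.FourCore

set_option autoImplicit false

open Finset Pool.Agent.H428I

namespace Pool.Agent.T9h92.INF

/-- the payoff of the infiltrator's mixture, up to the normalization, as a function of the factors of
the times 1 and 2 -/
def Phi (lam al be ga de e11 e12 e21 e22 e23 : ℝ) : ℝ :=
  lam * ((1 + lam) * (e11 * e21)) * al + (e11 * e21 + e11 * e22 + e12 * e21) * be +
    ((1 + lam) * (e11 * e22) + e12 * e22) * ga + ((1 + lam) ^ 2 * (e12 * e23)) * de

lemma phi_mono {lam al be ga de e11 e12 e21 e22 e23 f11 f12 f21 f22 f23 : ℝ} (h0 : 0 < lam)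
    (hal : 0 ≤ al) (hbe : 0 ≤ be) (hga : 0 ≤ ga) (hde : 0 ≤ de)
    (p1 : 0 ≤ f11) (p2 : 0 ≤ f12) (p3 : 0 ≤ f21) (p4 : 0 ≤ f22) (p5 : 0 ≤ f23)
    (q1 : f11 ≤ e11) (q2 : f12 ≤ e12) (q3 : f21 ≤ e21) (q4 : f22 ≤ e22) (q5 : f23 ≤ e23) :
    Phi lam al be ga de f11 f12 f21 f22 f23 ≤ Phi lam al be ga de e11 e12 e21 e22 e23 := by
  have r1 : 0 ≤ e11 := p1.trans q1
  have r2 : 0 ≤ e12 := p2.trans q2
  have s1 : f11 * f21 ≤ e11 * e21 := mul_le_mul q1 q3 p3 r1
  have s2 : f11 * f22 ≤ e11 * e22 := mul_le_mul q1 q4 p4 r1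
  have s3 : f12 * f21 ≤ e12 * e21 := mul_le_mul q2 q3 p3 r2
  have s4 : f12 * f22 ≤ e12 * e22 := mul_le_mul q2 q4 p4 r2
  have s5 : f12 * f23 ≤ e12 * e23 := mul_le_mul q2 q5 p5 r2
  unfold Phi
  have t1 : 0 ≤ lam * (1 + lam) * al := by positivity
  have t2 : 0 ≤ (1 + lam) ^ 2 * de := by positivity
  have t3 : 0 ≤ (1 + lam) * ga := by positivity
  nlinarith [mul_le_mul_of_nonneg_left s1 t1, mul_le_mul_of_nonneg_left s1 hbe,
    mul_le_mul_of_nonneg_left s2 hbe, mul_le_mul_of_nonneg_left s3 hbe,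
    mul_le_mul_of_nonneg_left s2 t3, mul_le_mul_of_nonneg_left s4 hga,
    mul_le_mul_of_nonneg_left s5 t2]

lemma phi_bound {lam : ℝ} (h0 : 0 < lam) (h1 : lam < 1) (a b c : ℤ)
    (ha : a = 1 ∨ a = 2 ∨ a = 3 ∨ a = 4) (hb : b = 1 ∨ b = 2 ∨ b = 3 ∨ b = 4)
    (hc : c = 1 ∨ c = 2 ∨ c = 3 ∨ c = 4) (p q : ℤ) :
    lam * ((1 + lam) ^ 2 * (2 + lam)) ≤
      Phi lam (ee lam (a = 1) * ee lam (b = 2) * ee lam (c = 3))
        (ee lam (a = 2) * ee lam (b = 3) * ee lam (c = 4)) (ee lam (a = 3) * ee lam (b = 4))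
        (ee lam (a = 4)) (ee lam (p = 1)) (ee lam (p = 2)) (ee lam (q = 1)) (ee lam (q = 2))
        (ee lam (q = 3)) := by
  have hp : 0 < 1 - lam := by linarith
  have hal : 0 ≤ ee lam (a = 1) * ee lam (b = 2) * ee lam (c = 3) :=
    (mul_pos (mul_pos (ee_pos h0 _) (ee_pos h0 _)) (ee_pos h0 _)).le
  have hbe : 0 ≤ ee lam (a = 2) * ee lam (b = 3) * ee lam (c = 4) :=
    (mul_pos (mul_pos (ee_pos h0 _) (ee_pos h0 _)) (ee_pos h0 _)).le
  have hga : 0 ≤ ee lam (a = 3) * ee lam (b = 4) := (mul_pos (ee_pos h0 _) (ee_pos h0 _)).le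
  have hde : 0 ≤ ee lam (a = 4) := (ee_pos h0 _).le
  have e1 : (lam ≤ ee lam (p = 1) ∧ 1 ≤ ee lam (p = 2)) ∨
      (1 ≤ ee lam (p = 1) ∧ lam ≤ ee lam (p = 2)) := by
    by_cases h : p = 1
    · left
      refine ⟨le_ee h1 _, ?_⟩
      rw [ee_false (by omega)]
    · right
      refine ⟨?_, le_ee h1 _⟩
      rw [ee_false h]
  have e2 : (lam ≤ ee lam (q = 1) ∧ 1 ≤ ee lam (q = 2) ∧ 1 ≤ ee lam (q = 3)) ∨
      (1 ≤ ee lam (q = 1) ∧ lam ≤ ee lam (q = 2) ∧ 1 ≤ ee lam (q = 3)) ∨
      (1 ≤ ee lam (q = 1) ∧ 1 ≤ ee lam (q = 2) ∧ lam ≤ ee lam (q = 3)) := by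
    by_cases h : q = 1
    · left
      refine ⟨le_ee h1 _, ?_, ?_⟩
      · rw [ee_false (by omega)]
      · rw [ee_false (by omega)]
    · right
      by_cases h' : q = 2
      · left
        refine ⟨?_, le_ee h1 _, ?_⟩
        · rw [ee_false (by omega)]
        · rw [ee_false (by omega)]
      · right
        refine ⟨?_, ?_, le_ee h1 _⟩
        · rw [ee_false (by omega)]
        · rw [ee_false (by omega)]
  have m1 : 0 < lam ^ 2 := by positivity
  have m2 : 0 < lam ^ 3 := by positivity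
  have m3 : 0 < lam ^ 4 := by positivity
  have n1 : 0 < lam * (1 - lam) := by positivity
  have n2 : 0 < lam ^ 2 * (1 - lam) := by positivity
  have n3 : 0 < lam ^ 3 * (1 - lam) := by positivity
  rcases e1 with ⟨u1, u2⟩ | ⟨u1, u2⟩
  · rcases e2 with ⟨v1, v2, v3⟩ | ⟨v1, v2, v3⟩ | ⟨v1, v2, v3⟩
    · refine le_trans ?_ (phi_mono h0 hal hbe hga hde h0.le zero_le_one h0.le zero_le_one
        zero_le_one u1 u2 v1 v2 v3)
      have := core h0 h1 (Z := (1 + lam) * (lam * lam)) (P := lam * lam + lam * 1 + 1 * lam)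
        (Q := (1 + lam) * (lam * 1) + 1 * 1) (R := (1 + lam) ^ 2 * (1 * 1)) (by positivity)
        (by positivity) (by positivity) (by positivity) (by nlinarith) (by nlinarith)
        (by nlinarith) (by nlinarith) (by nlinarith) (by nlinarith) a b c ha hb hc
      refine le_trans (le_of_eq ?_) this
      ring
    · refine le_trans ?_ (phi_mono h0 hal hbe hga hde h0.le zero_le_one zero_le_one h0.le
        zero_le_one u1 u2 v1 v2 v3)
      have := core h0 h1 (Z := (1 + lam) * (lam * 1)) (P := lam * 1 + lam * lam + 1 * 1)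
        (Q := (1 + lam) * (lam * lam) + 1 * lam) (R := (1 + lam) ^ 2 * (1 * 1)) (by positivity)
        (by positivity) (by positivity) (by positivity) (by nlinarith) (by nlinarith)
        (by nlinarith) (by nlinarith) (by nlinarith) (by nlinarith) a b c ha hb hc
      refine le_trans (le_of_eq ?_) this
      ring
    · refine le_trans ?_ (phi_mono h0 hal hbe hga hde h0.le zero_le_one zero_le_one zero_le_one
        h0.le u1 u2 v1 v2 v3)
      have := core h0 h1 (Z := (1 + lam) * (lam * 1)) (P := lam * 1 + lam * 1 + 1 * 1)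
        (Q := (1 + lam) * (lam * 1) + 1 * 1) (R := (1 + lam) ^ 2 * (1 * lam)) (by positivity)
        (by positivity) (by positivity) (by positivity) (by nlinarith) (by nlinarith)
        (by nlinarith) (by nlinarith) (by nlinarith) (by nlinarith) a b c ha hb hc
      refine le_trans (le_of_eq ?_) this
      ring
  · rcases e2 with ⟨v1, v2, v3⟩ | ⟨v1, v2, v3⟩ | ⟨v1, v2, v3⟩
    · refine le_trans ?_ (phi_mono h0 hal hbe hga hde zero_le_one h0.le h0.le zero_le_one
        zero_le_one u1 u2 v1 v2 v3)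
      have := core h0 h1 (Z := (1 + lam) * (1 * lam)) (P := 1 * lam + 1 * 1 + lam * lam)
        (Q := (1 + lam) * (1 * 1) + lam * 1) (R := (1 + lam) ^ 2 * (lam * 1)) (by positivity)
        (by positivity) (by positivity) (by positivity) (by nlinarith) (by nlinarith)
        (by nlinarith) (by nlinarith) (by nlinarith) (by nlinarith) a b c ha hb hc
      refine le_trans (le_of_eq ?_) this
      ring
    · refine le_trans ?_ (phi_mono h0 hal hbe hga hde zero_le_one h0.le zero_le_one h0.le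
        zero_le_one u1 u2 v1 v2 v3)
      have := core h0 h1 (Z := (1 + lam) * (1 * 1)) (P := 1 * 1 + 1 * lam + lam * 1)
        (Q := (1 + lam) * (1 * lam) + lam * lam) (R := (1 + lam) ^ 2 * (lam * 1)) (by positivity)
        (by positivity) (by positivity) (by positivity) (by nlinarith) (by nlinarith)
        (by nlinarith) (by nlinarith) (by nlinarith) (by nlinarith) a b c ha hb hc
      refine le_trans (le_of_eq ?_) this
      ring
    · refine le_trans ?_ (phi_mono h0 hal hbe hga hde zero_le_one h0.le zero_le_one zero_le_one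
        h0.le u1 u2 v1 v2 v3)
      refine (core23 h0 h1 a b c ha hb hc).trans (le_of_eq ?_)
      unfold Phi
      ring

end Pool.Agent.T9h92.INF
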