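import Pool.Agent.T9h92.INF.Up3

set_option autoImplicit false

open Finset Pool.Agent.H428I

namespace Pool.Agent.T9h92.INF

/-- the holding times of the front: a power of two between `d + 2` and `2 d + 2` -/
def kap (d : ℕ) : ℕ := 2 ^ (Nat.log 2 (d + 1) + 1)

lemma kap_gt (d : ℕ) : d + 1 < kap d := Nat.lt_pow_succ_log_self (by norm_num) _

lemma kap_le (d : ℕ) : kap d ≤ 2 * (d + 1) := by
  unfold kap
  rw [pow_succ, mul_comm]
  exact Nat.mul_le_mul_left _ (Nat.pow_log_le_self 2 (by omega))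

lemma kap_dvd {a b : ℕ} (h : a ≤ b) : kap a ∣ kap b :=
  pow_dvd_pow 2 (Nat.add_le_add_right (Nat.log_mono_right (by omega)) 1)

lemma two_le_kap (d : ℕ) : 2 ≤ kap d := by have := kap_gt d; omega

/-- the number of the stays of the front of the run `i` up to the time `t`: it stays at the
multiples of `kap (i - j)`, when `16 ^ j ≤ t < 16 ^ (j + 1)` -/
def idx (i : ℕ) : ℕ → ℕ
  | 0 => 0
  | (t + 1) => idx i t + if kap (i - Nat.log 16 (t + 1)) ∣ t + 1 then 1 else 0

/-- the front of the run `i` -/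
def fro (i t : ℕ) : ℤ := 1 + (t : ℤ) - (idx i t : ℤ)

lemma idx_succ (i t : ℕ) : idx i (t + 1) =
    idx i t + if kap (i - Nat.log 16 (t + 1)) ∣ t + 1 then 1 else 0 := rfl

lemma idx_le (i t : ℕ) : idx i t ≤ t := by
  induction t with
  | zero => exact le_refl _
  | succ t ih => rw [idx_succ]; split_ifs <;> omega

lemma fro_le (i t : ℕ) : fro i t ≤ 1 + t := by unfold fro; omega
lemma one_le_fro (i t : ℕ) : 1 ≤ fro i t := by have := idx_le i t; unfold fro; omega
lemma fro_zero (i : ℕ) : fro i 0 = 1 := by unfold fro idx; norm_num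

lemma fro_succ (i t : ℕ) : fro i (t + 1) =
    fro i t + 1 - (if kap (i - Nat.log 16 (t + 1)) ∣ t + 1 then 1 else 0) := by
  unfold fro
  rw [idx_succ]
  split_ifs <;> push_cast <;> ring

lemma fro_step (i t : ℕ) : fro i t ≤ fro i (t + 1) ∧ fro i (t + 1) ≤ fro i t + 1 := by
  rw [fro_succ]
  split_ifs <;> constructor <;> linarith

lemma fro_one (i : ℕ) : fro i 1 = 2 := by
  have h := fro_succ i 0
  rw [fro_zero, zero_add] at h
  rw [h, if_neg]
  · norm_num
  · intro h2
    have h3 := Nat.le_of_dvd one_pos h2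
    have := two_le_kap (i - Nat.log 16 1)
    omega

/-- a sweep from the height `H` at the time `b`: down to cell 1, with the delay `e`, then up -/
def swg (H b : ℤ) (e : Bool) (t : ℤ) : ℤ :=
  max (max 1 (1 + t - 4 * b)) (min H (H + b + (if e then 1 else 0) - t))

lemma swg_step (H b : ℤ) (e : Bool) (t : ℤ) : |swg H b e (t + 1) - swg H b e t| ≤ 1 := by
  unfold swg
  rw [abs_le]
  split_ifs <;> constructor <;> omega

lemma swg_start {H b : ℤ} (e : Bool) (hH : 1 ≤ H) (hb : 1 ≤ b) : swg H b e b = H := by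
  unfold swg
  split_ifs <;> omega

lemma swg_end {H b c : ℤ} (e : Bool) (hH : H ≤ 1 + b) (hb : 1 ≤ b) (hc : 16 * b ≤ c) :
    swg H b e c = 1 + c - 4 * b := by
  unfold swg
  split_ifs <;> omega

/-- the height at the start of the sweep `r` of the run `i` -/
def hgt (i : ℕ) : ℕ → ℤ
  | 0 => fro i (16 ^ i)
  | (r + 1) => 1 + ((16 ^ (i + (r + 1) ^ 2) : ℕ) : ℤ) - 4 * ((16 ^ (i + r ^ 2) : ℕ) : ℤ)

lemma hgt_zero (i : ℕ) : hgt i 0 = fro i (16 ^ i) := rfl
lemma hgt_succ (i r : ℕ) : hgt i (r + 1) =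
    1 + ((16 ^ (i + (r + 1) ^ 2) : ℕ) : ℤ) - 4 * ((16 ^ (i + r ^ 2) : ℕ) : ℤ) := rfl

/-- the searcher's path of the run `i` -/
def zz (i : ℕ) (e : ℕ → Bool) (t : ℕ) : ℤ :=
  if t = 0 then 1 else if Nat.log 16 t < i then fro i t else
    swg (hgt i (Nat.sqrt (Nat.log 16 t - i)))
      ((16 ^ (i + (Nat.sqrt (Nat.log 16 t - i)) ^ 2) : ℕ) : ℤ)
      (e (Nat.sqrt (Nat.log 16 t - i))) t

/-- the searcher's path of the run `i` up to the time `16 ^ L`, then he stays -/
def zpath (L i : ℕ) (e : ℕ → Bool) (t : ℕ) : ℤ := zz i e (min t (16 ^ L))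

lemma pow_gap (i r : ℕ) : 16 * 16 ^ (i + r ^ 2) ≤ 16 ^ (i + (r + 1) ^ 2) := by
  rw [← pow_succ']
  apply Nat.pow_le_pow_right (by norm_num)
  have : (r + 1) ^ 2 = r ^ 2 + 2 * r + 1 := by ring
  omega

lemma one_le_pow' (a : ℕ) : 1 ≤ 16 ^ a := Nat.one_le_pow _ _ (by norm_num)

lemma hgt_bounds (i r : ℕ) : 1 ≤ hgt i r ∧ hgt i r ≤ 1 + ((16 ^ (i + r ^ 2) : ℕ) : ℤ) := by
  rcases r with _ | r
  · constructor
    · exact one_le_fro _ _
    · have := fro_le i (16 ^ i)
      simpa [hgt] using this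
  · have h1 := pow_gap i r
    have h2 := one_le_pow' (i + r ^ 2)
    rw [hgt_succ]
    constructor <;> omega

lemma zz_front (i : ℕ) (e : ℕ → Bool) (t : ℕ) (h1 : 1 ≤ t) (h2 : t < 16 ^ i) :
    zz i e t = fro i t := by
  unfold zz
  rw [if_neg (by omega), if_pos (Nat.log_lt_of_lt_pow (by omega) h2)]

lemma block (i r t : ℕ) (h1 : 16 ^ (i + r ^ 2) ≤ t) (h2 : t < 16 ^ (i + (r + 1) ^ 2)) :
    i ≤ Nat.log 16 t ∧ Nat.sqrt (Nat.log 16 t - i) = r := by
  have ht : t ≠ 0 := by have := one_le_pow' (i + r ^ 2); omega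
  have h3 : i + r ^ 2 ≤ Nat.log 16 t := Nat.le_log_of_pow_le (by norm_num) h1
  have h4 : Nat.log 16 t < i + (r + 1) ^ 2 := Nat.log_lt_of_lt_pow ht h2
  refine ⟨by omega, ?_⟩
  symm
  rw [Nat.eq_sqrt']
  omega

lemma zz_block (i : ℕ) (e : ℕ → Bool) (r t : ℕ) (h1 : 16 ^ (i + r ^ 2) ≤ t)
    (h2 : t < 16 ^ (i + (r + 1) ^ 2)) :
    zz i e t = swg (hgt i r) ((16 ^ (i + r ^ 2) : ℕ) : ℤ) (e r) t := by
  obtain ⟨h3, h4⟩ := block i r t h1 h2
  have ht : t ≠ 0 := by have := one_le_pow' (i + r ^ 2); omega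
  unfold zz
  rw [if_neg ht, if_neg (by omega), h4]

lemma zz_start (i : ℕ) (e : ℕ → Bool) (r : ℕ) : zz i e (16 ^ (i + r ^ 2)) = hgt i r := by
  have h1 := pow_gap i r
  have h2 := one_le_pow' (i + r ^ 2)
  rw [zz_block i e r _ le_rfl (by omega)]
  exact swg_start _ (hgt_bounds i r).1 (by exact_mod_cast h2)

lemma zz_step (i : ℕ) (e : ℕ → Bool) (t : ℕ) : |zz i e (t + 1) - zz i e t| ≤ 1 := by
  rcases Nat.eq_zero_or_pos t with rfl | ht
  · have h0 : zz i e 0 = 1 := by unfold zz; rw [if_pos rfl]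
    have h1 : zz i e 1 = 2 := by
      rcases Nat.eq_zero_or_pos i with rfl | hi
      · have := zz_start 0 e 0
        simp only [hgt, zero_add, ne_eq, OfNat.ofNat_ne_zero, not_false_eq_true, zero_pow,
          pow_zero] at this
        rw [this, fro_one]
      · rw [zz_front i e 1 le_rfl (Nat.one_lt_pow (by omega) (by norm_num)), fro_one]
    rw [show 0 + 1 = 1 from rfl, h1, h0]
    norm_num
  · rcases Nat.lt_or_ge (t + 1) (16 ^ i) with h | h
    · rw [zz_front i e t ht (by omega), zz_front i e (t + 1) (by omega) h, abs_le]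
      have := fro_step i t
      constructor <;> linarith [this.1, this.2]
    · rcases Nat.lt_or_ge t (16 ^ i) with h' | h'
      · have h3 : t + 1 = 16 ^ i := by omega
        have h4 := zz_start i e 0
        simp only [hgt, ne_eq, OfNat.ofNat_ne_zero, not_false_eq_true, zero_pow, add_zero] at h4
        rw [zz_front i e t ht h', h3, h4, ← h3, abs_le]
        have := fro_step i t
        constructor <;> linarith [this.1, this.2]
      · set r := Nat.sqrt (Nat.log 16 t - i) with hr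
        have hi : i ≤ Nat.log 16 t := Nat.le_log_of_pow_le (by norm_num) h'
        have hr1 : r ^ 2 ≤ Nat.log 16 t - i := Nat.sqrt_le' _
        have hr2 : Nat.log 16 t - i < (r + 1) ^ 2 := Nat.lt_succ_sqrt' _
        have h1 : 16 ^ (i + r ^ 2) ≤ t :=
          (Nat.pow_le_pow_right (by norm_num) (by omega)).trans (Nat.pow_log_le_self 16 (by omega))
        have h2 : t < 16 ^ (i + (r + 1) ^ 2) :=
          (Nat.lt_pow_succ_log_self (by norm_num) t).trans_le
            (Nat.pow_le_pow_right (by norm_num) (by omega))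
        rw [zz_block i e r t h1 h2]
        rcases Nat.lt_or_ge (t + 1) (16 ^ (i + (r + 1) ^ 2)) with h3 | h3
        · rw [zz_block i e r (t + 1) (by omega) h3]
          push_cast
          exact swg_step _ _ _ _
        · have h4 : t + 1 = 16 ^ (i + (r + 1) ^ 2) := by omega
          have h5 : zz i e (t + 1) = swg (hgt i r) ((16 ^ (i + r ^ 2) : ℕ) : ℤ) (e r) ((t : ℤ) + 1) := by
            have e1 : ((t : ℤ) + 1) = ((16 ^ (i + (r + 1) ^ 2) : ℕ) : ℤ) := by
              rw [← h4]; push_cast; ring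
            rw [e1, swg_end (e r) (hgt_bounds i r).2 (by exact_mod_cast one_le_pow' _)
              (by exact_mod_cast pow_gap i r), h4, zz_start i e (r + 1)]
            rfl
          rw [h5]
          exact swg_step _ _ _ _

lemma zz_range (i L n : ℕ) (e : ℕ → Bool) (hi : i < L) (hn : 16 ^ L ≤ n)
    (t : ℕ) (ht : t ≤ 16 ^ L) : 1 ≤ zz i e t ∧ zz i e t ≤ n := by
  have hn1 : 1 ≤ n := (one_le_pow' L).trans hn
  rcases Nat.eq_zero_or_pos t with rfl | ht0
  · unfold zz
    rw [if_pos rfl]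
    exact ⟨le_refl _, by exact_mod_cast hn1⟩
  · have hiL : 16 ^ i < 16 ^ L := Nat.pow_lt_pow_right (by norm_num) hi
    rcases Nat.lt_or_ge t (16 ^ i) with h' | h'
    · rw [zz_front i e t ht0 h']
      have := fro_le i t
      exact ⟨one_le_fro _ _, by omega⟩
    · set r := Nat.sqrt (Nat.log 16 t - i) with hr
      have hi' : i ≤ Nat.log 16 t := Nat.le_log_of_pow_le (by norm_num) h'
      have hr1 : r ^ 2 ≤ Nat.log 16 t - i := Nat.sqrt_le' _
      have hr2 : Nat.log 16 t - i < (r + 1) ^ 2 := Nat.lt_succ_sqrt' _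
      have h1 : 16 ^ (i + r ^ 2) ≤ t :=
        (Nat.pow_le_pow_right (by norm_num) (by omega)).trans (Nat.pow_log_le_self 16 (by omega))
      have h2 : t < 16 ^ (i + (r + 1) ^ 2) :=
        (Nat.lt_pow_succ_log_self (by norm_num) t).trans_le
          (Nat.pow_le_pow_right (by norm_num) (by omega))
      rw [zz_block i e r t h1 h2]
      have h5 : hgt i r ≤ n := by
        rcases Nat.eq_zero_or_pos r with h6 | h6
        · rw [h6]
          have := fro_le i (16 ^ i)
          rw [hgt_zero]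
          omega
        · obtain ⟨s, hs⟩ : ∃ s, r = s + 1 := ⟨r - 1, by omega⟩
          rw [hs] at h1 ⊢
          have := one_le_pow' (i + s ^ 2)
          rw [hgt_succ]
          omega
      have h6 := one_le_pow' (i + r ^ 2)
      have h7 := (hgt_bounds i r).1
      have h8 : (1 : ℤ) ≤ ((16 ^ (i + r ^ 2) : ℕ) : ℤ) := by exact_mod_cast h6
      have h9 : (t : ℤ) ≤ n := by exact_mod_cast ht.trans hn
      have h10 : (1 : ℤ) ≤ n := by exact_mod_cast hn1
      unfold swg
      generalize hgt i r = F at *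
      generalize ((16 ^ (i + r ^ 2) : ℕ) : ℤ) = b at *
      split_ifs <;> constructor <;> omega

lemma zpath_search (L i n : ℕ) (e : ℕ → Bool) (hi : i < L) (hn : 16 ^ L ≤ n)
    (w : ℕ) (hw : 1 ≤ w) : IsSearch n w (zpath L i e) := by
  refine ⟨?_, fun k => ?_⟩
  · unfold zpath zz
    simp
  · have h := zz_range i L n e hi hn (min (k + 1) (16 ^ L)) (min_le_right _ _)
    refine ⟨h.1, h.2, ?_⟩
    have hw' : (1 : ℤ) ≤ w := by exact_mod_cast hw
    refine le_trans ?_ hw'
    unfold zpath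
    rcases Nat.lt_or_ge k (16 ^ L) with h1 | h1
    · rw [min_eq_left (by omega), min_eq_left (by omega)]
      exact zz_step i e k
    · rw [min_eq_right (by omega), min_eq_right h1]
      simp

end Pool.Agent.T9h92.INF
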