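import Pool.Agent.T9h92.INF.Ord1

set_option autoImplicit false

open Finset Pool.Agent.H428I

namespace Pool.Agent.T9h92.INF

lemma sweepG {n : ℕ} {x : ℕ → ℤ} (hx : IsInfil n x) (b : ℕ) (F : ℤ) (hb : 1 ≤ b) (h1 : 1 ≤ F)
    (h1' : F ≤ 1 + b) (hj : x b ≤ F) :
    ∃ (e : Bool) (t : ℕ), b ≤ t ∧ t ≤ 2 * b ∧ x t = swg F b e t := by
  classical
  unfold swg
  have hex : ∃ t, b ≤ t ∧ F + b - t ≤ x t := by
    refine ⟨b + (F - 1).toNat, by omega, ?_⟩
    have := infil_one hx (b + (F - 1).toNat)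
    have h5 : (((b + (F - 1).toNat : ℕ)) : ℤ) = b + (F - 1) := by
      push_cast
      omega
    rw [h5]
    linarith
  obtain ⟨t, ⟨ht1, ht2⟩, ht3⟩ : ∃ t, (b ≤ t ∧ F + b - t ≤ x t) ∧
      ∀ k, k < t → ¬ (b ≤ k ∧ F + b - k ≤ x k) :=
    ⟨Nat.find hex, Nat.find_spec hex, fun k hk => Nat.find_min hex hk⟩
  have ht4 : t ≤ 2 * b := by
    by_contra h
    apply ht3 (2 * b) (by omega)
    refine ⟨by omega, ?_⟩
    have := infil_one hx (2 * b)
    push_cast
    linarith
  have hone := infil_one hx t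
  rcases eq_or_lt_of_le ht2 with h5 | h5
  · refine ⟨false, t, ht1, by omega, ?_⟩
    simp only [Bool.false_eq_true, if_false]
    omega
  · have htb : b ≠ t := by
      rintro rfl
      linarith
    obtain ⟨s, rfl⟩ : ∃ s, t = s + 1 := ⟨t - 1, by omega⟩
    have h6 := ht3 s (by omega)
    have h7 := infil_add hx s 1
    have h8 : x s < F + b - s := by
      by_contra h
      exact h6 ⟨by omega, by linarith⟩
    refine ⟨true, s + 1, ht1, by omega, ?_⟩
    simp only [if_true]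
    push_cast at *
    omega

/-- passing the front costs `kap - 1` catches -/
lemma frontG {n : ℕ} {x : ℕ → ℤ} (hx : IsInfil n x) (i P : ℕ) (hP : fro i P < x P)
    (hlt : ∀ t, t < P → x t ≤ fro i t) :
    kap (i - Nat.log 16 P) ≤ P ∧
      ∀ t, P - (kap (i - Nat.log 16 P) - 1) ≤ t → t < P → x t = fro i t := by
  have hP0 : P ≠ 0 := by
    rintro rfl
    rw [fro_zero, hx.1] at hP
    exact lt_irrefl _ hP
  obtain ⟨p, rfl⟩ := Nat.exists_eq_succ_of_ne_zero hP0
  simp only [Nat.succ_eq_add_one] at *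
  have h1 := infil_add hx p 1
  have h2 := hlt p (by omega)
  have h3 := fro_succ i p
  set k := kap (i - Nat.log 16 (p + 1)) with hk
  have hd : k ∣ p + 1 := by
    by_contra h
    rw [if_neg h] at h3
    push_cast at h1
    linarith
  rw [if_pos hd] at h3
  have h4 : x p = fro i p := by
    push_cast at h1
    linarith
  have hkp : k ≤ p + 1 := Nat.le_of_dvd (by omega) hd
  have key : ∀ d, d ≤ k - 1 → fro i p = fro i (p - d) + d := by
    intro d
    induction d with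
    | zero => intro _; simp
    | succ d ih =>
      intro hd1
      have h5 := ih (by omega)
      have h6 := fro_succ i (p - (d + 1))
      have h7 : p - (d + 1) + 1 = p - d := by omega
      rw [h7] at h6
      rw [if_neg] at h6
      · rw [h5, h6]; push_cast; ring
      · intro h8
        have h9 : k ∣ kap (i - Nat.log 16 (p - d)) := by
          apply kap_dvd
          have : Nat.log 16 (p - d) ≤ Nat.log 16 (p + 1) := Nat.log_mono_right (by omega)
          omega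
        have h10 : k ∣ p - d := h9.trans h8
        have h11 : k ∣ (p + 1) - (p - d) := Nat.dvd_sub hd h10
        have h12 : (p + 1) - (p - d) = d + 1 := by omega
        rw [h12] at h11
        have := Nat.le_of_dvd (by omega) h11
        omega
  refine ⟨hkp, fun t ht1 ht2 => ?_⟩
  have h5 := key (p - t) (by omega)
  have h6 : p - (p - t) = t := by omega
  rw [h6] at h5
  have h7 := infil_add hx t (p - t)
  have h8 : t + (p - t) = p := by omega
  rw [h8] at h7
  have h9 := hlt t ht2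
  linarith

lemma idx_lower (i j : ℕ) (t : ℕ) (ht : 16 ^ j ≤ t) :
    t / kap (i - j) ≤ idx i t + 16 ^ j / kap (i - j) := by
  induction t, ht using Nat.le_induction with
  | base => omega
  | succ t ht ih =>
    rw [idx_succ, Nat.succ_div]
    by_cases h : kap (i - j) ∣ t + 1
    · rw [if_pos h, if_pos]
      · omega
      · refine dvd_trans (kap_dvd ?_) h
        have : j ≤ Nat.log 16 (t + 1) := Nat.le_log_of_pow_le (by norm_num) (by omega)
        omega
    · rw [if_neg h]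
      omega

/-- the front of a later run is below the height of a sweep of an earlier run -/
lemma compare (i i' s : ℕ) (h1 : i + (s + 1) ^ 2 ≤ i') (h2 : i' - i + 1 ≤ 256 ^ s) :
    fro i' (16 ^ (i + (s + 1) ^ 2)) ≤ hgt i (s + 1) := by
  have e0 : (s + 1) ^ 2 = s ^ 2 + 2 * s + 1 := by ring
  have h3 := idx_lower i' (i + s ^ 2 + 2 * s) (16 ^ (i + (s + 1) ^ 2))
    (Nat.pow_le_pow_right (by norm_num) (by omega))
  set k := kap (i' - (i + s ^ 2 + 2 * s)) with hk
  have hk1 : k ≤ 2 * (i' - (i + s ^ 2 + 2 * s) + 1) := kap_le _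
  have hk2 : 8 * k ≤ 16 ^ (2 * s + 1) := by
    have : 16 ^ (2 * s + 1) = 16 * 256 ^ s := by
      rw [pow_succ, pow_mul]; norm_num; ring
    omega
  have e1 : 16 ^ (i + (s + 1) ^ 2) = 16 ^ (i + s ^ 2) * 16 ^ (2 * s + 1) := by
    rw [← pow_add]; congr 1; omega
  have e2 : 16 ^ (i + (s + 1) ^ 2) = 16 * 16 ^ (i + s ^ 2 + 2 * s) := by
    rw [← pow_succ']; congr 1; omega
  have hkpos : 0 < k := by have := two_le_kap (i' - (i + s ^ 2 + 2 * s)); omega
  have h4 : 8 * 16 ^ (i + s ^ 2) ≤ 16 ^ (i + (s + 1) ^ 2) / k := by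
    rw [Nat.le_div_iff_mul_le hkpos, e1]
    calc 8 * 16 ^ (i + s ^ 2) * k = 16 ^ (i + s ^ 2) * (8 * k) := by ring
      _ ≤ 16 ^ (i + s ^ 2) * 16 ^ (2 * s + 1) := Nat.mul_le_mul_left _ hk2
  have h5 : 16 * (16 ^ (i + s ^ 2 + 2 * s) / k) ≤ 16 ^ (i + (s + 1) ^ 2) / k := by
    rw [e2]
    exact Nat.mul_div_le_mul_div_assoc _ _ _
  have h6 : 4 * 16 ^ (i + s ^ 2) ≤ idx i' (16 ^ (i + (s + 1) ^ 2)) := by
    generalize 16 ^ (i + (s + 1) ^ 2) / k = q at *
    generalize 16 ^ (i + s ^ 2 + 2 * s) / k = q' at *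
    omega
  unfold fro
  rw [hgt_succ]
  have h7 : (4 : ℤ) * ((16 ^ (i + s ^ 2) : ℕ) : ℤ) ≤ (idx i' (16 ^ (i + (s + 1) ^ 2)) : ℤ) := by
    exact_mod_cast h6
  linarith

lemma win_frontG {lam : ℝ} (h0 : 0 < lam) (h1 : lam < 1) {n L i : ℕ}
    (e : ℕ → Bool) {x : ℕ → ℤ} (hx : IsInfil n x) {T : ℕ} (hT : x T = n + 1)
    (hTlt : ∀ k, k < T → x k ≠ n + 1) (P : ℕ) (hP : fro i P < x P)
    (hlt : ∀ t, t < P → x t ≤ fro i t) (hPT : P ≤ T) (hPi : P ≤ 16 ^ i) (hiL : i ≤ L) :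
    win n lam x (zpath L i e) ≤ lam ^ (kap (i - Nat.log 16 P) - 1) := by
  obtain ⟨hmP, hc⟩ := frontG hx i P hP hlt
  have hk := two_le_kap (i - Nat.log 16 P)
  refine win_le_pow h0 h1 hT hTlt (Finset.Ico (P - (kap (i - Nat.log 16 P) - 1)) P) ?_ ?_
  · intro k hk
    rw [mem_Ico] at hk
    refine ⟨by omega, by omega, ?_⟩
    rw [hc k hk.1 hk.2]
    have hpow : 16 ^ i ≤ 16 ^ L := Nat.pow_le_pow_right (by norm_num) hiL
    unfold zpath
    rw [min_eq_left (by omega), zz_front i e k (by omega) (by omega)]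
  · rw [Nat.card_Ico]
    omega

lemma win_sweepG {lam : ℝ} (h0 : 0 < lam) (h1 : lam < 1) {n L i : ℕ}
    (e : ℕ → Bool) {x : ℕ → ℤ} {T : ℕ} (hT : x T = n + 1)
    (hTlt : ∀ k, k < T → x k ≠ n + 1) (W : Finset ℕ) (g : ℕ → Bool) (tau : ℕ → ℕ)
    (hg : ∀ r ∈ W, 16 ^ (i + r ^ 2) ≤ tau r ∧ tau r ≤ 2 * 16 ^ (i + r ^ 2) ∧
      x (tau r) = swg (hgt i r) ((16 ^ (i + r ^ 2) : ℕ) : ℤ) (g r) (tau r))
    (hW : ∀ r ∈ W, i + (r + 1) ^ 2 ≤ L) (hLT : 16 ^ L ≤ T) :
    win n lam x (zpath L i e) ≤ lam ^ (W.filter (fun r => e r = g r)).card := by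
  have hlt : ∀ r ∈ W, tau r < 16 ^ (i + (r + 1) ^ 2) := by
    intro r hr
    have := pow_gap i r
    have := one_le_pow' (i + r ^ 2)
    have := (hg r hr).2.1
    omega
  have hlog : ∀ r ∈ W, Nat.sqrt (Nat.log 16 (tau r) - i) = r := fun r hr =>
    (block i r (tau r) (hg r hr).1 (hlt r hr)).2
  have hinj : Set.InjOn tau ((W.filter (fun r => e r = g r) : Finset ℕ) : Set ℕ) := by
    intro a ha b hb hab
    rw [mem_coe, mem_filter] at ha hb
    rw [← hlog a ha.1, ← hlog b hb.1, hab]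
  refine win_le_pow h0 h1 hT hTlt ((W.filter (fun r => e r = g r)).image tau) ?_ ?_
  · intro k hk
    rw [mem_image] at hk
    obtain ⟨r, hr, rfl⟩ := hk
    rw [mem_filter] at hr
    obtain ⟨hr1, hr2⟩ := hr
    obtain ⟨a1, a2, a3⟩ := hg r hr1
    have h3 := one_le_pow' (i + r ^ 2)
    have h4 : 16 ^ (i + (r + 1) ^ 2) ≤ 16 ^ L := Nat.pow_le_pow_right (by norm_num) (hW r hr1)
    have h5 := hlt r hr1
    refine ⟨by omega, by omega, ?_⟩
    rw [a3]
    unfold zpath
    rw [min_eq_left (by omega), zz_block i e r _ a1 h5, hr2]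
  · rw [card_image_of_injOn hinj]

end Pool.Agent.T9h92.INF
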