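import Pool.Agent.T9h92.INF.Basic

set_option autoImplicit false

open Finset Pool.Agent.H428I

namespace Pool.Agent.T9h92.INF

/-- wait at cell 1 for `s` time units, then one cell up at each time, up to the cell `c + 1` -/
def delay (c s k : ℕ) : ℤ := ((1 + min c (k - s) : ℕ) : ℤ)

lemma delay_infil (s : ℕ) : IsInfil 3 (delay 3 s) := by
  unfold IsInfil delay
  refine ⟨by simp, fun k => ⟨?_, ?_, ?_⟩⟩
  · push_cast; omega
  · push_cast; omega
  · rw [abs_le]; push_cast; omega

lemma delay_search (a : ℕ) : IsSearch 3 1 (delay 2 a) := by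
  unfold IsSearch delay
  refine ⟨by simp, fun k => ⟨?_, ?_, ?_⟩⟩
  · push_cast; omega
  · push_cast; omega
  · rw [abs_le]; push_cast; omega

/-- the number of the catches at cell 1 up to time `k` -/
def cnt (y : ℕ → ℤ) (k : ℕ) : ℕ := ((Finset.Ico 1 (k + 1)).filter (fun j => y j = 1)).card

lemma cnt_zero (y : ℕ → ℤ) : cnt y 0 = 0 := by simp [cnt]

lemma cnt_succ (y : ℕ → ℤ) (k : ℕ) :
    cnt y (k + 1) = cnt y k + if y (k + 1) = 1 then 1 else 0 := by
  unfold cnt
  rw [← Finset.insert_Ico_right_eq_Ico_add_one (by omega : 1 ≤ k + 1), filter_insert]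
  split_ifs with h
  · rw [card_insert_of_notMem (by simp)]
  · simp

lemma win_delay {lam : ℝ} (y : ℕ → ℤ) (s : ℕ) :
    win 3 lam (delay 3 s) y = lam ^ (cnt y s + (if y (s + 1) = 2 then 1 else 0) +
      (if y (s + 2) = 3 then 1 else 0)) := by
  have hT : delay 3 s (s + 3) = ((3 : ℕ) : ℤ) + 1 := by unfold delay; push_cast; omega
  have hlt : ∀ k, k < s + 3 → delay 3 s k ≠ ((3 : ℕ) : ℤ) + 1 := by
    intro k hk; unfold delay; push_cast; omega
  rw [win_eq hT hlt]
  congr 1
  have e1 : (Finset.Ico 1 (s + 3)) = insert (s + 2) (insert (s + 1) (Finset.Ico 1 (s + 1))) := by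
    ext k; simp only [mem_Ico, mem_insert]; omega
  have e2 : delay 3 s (s + 2) = 3 := by unfold delay; push_cast; omega
  have e3 : delay 3 s (s + 1) = 2 := by unfold delay; push_cast; omega
  have e4 : (Finset.Ico 1 (s + 1)).filter (fun k => delay 3 s k = y k) =
      (Finset.Ico 1 (s + 1)).filter (fun j => y j = 1) := by
    apply filter_congr
    intro k hk
    rw [mem_Ico] at hk
    have : delay 3 s k = 1 := by unfold delay; push_cast; omega
    rw [this]
    exact eq_comm
  rw [e1, filter_insert, filter_insert, e2, e3, e4]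
  have h1 : (if (3 : ℤ) = y (s + 2) then (1 : ℕ) else 0) = if y (s + 2) = 3 then 1 else 0 := by
    simp [eq_comm]
  have h2 : (if (2 : ℤ) = y (s + 1) then (1 : ℕ) else 0) = if y (s + 1) = 2 then 1 else 0 := by
    simp [eq_comm]
  rw [← h1, ← h2]
  unfold cnt
  split_ifs with p q q
  · rw [card_insert_of_notMem (by simp), card_insert_of_notMem (by simp)]
  · rw [card_insert_of_notMem (by simp)]
  · rw [card_insert_of_notMem (by simp)]
  · rfl

/-- the parameter of the geometric delay -/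
noncomputable def rho (lam : ℝ) : ℝ :=
  ((1 + lam) ^ 2 - Real.sqrt ((1 + lam) ^ 4 - 4 * lam ^ 2 * (1 + lam))) / (2 * lam ^ 2)

lemma rho_quad {lam : ℝ} (h0 : 0 < lam) (h1 : lam < 1) :
    lam ^ 2 * rho lam ^ 2 - (1 + lam) ^ 2 * rho lam + (1 + lam) = 0 := by
  have hD : 0 ≤ (1 + lam) ^ 4 - 4 * lam ^ 2 * (1 + lam) := by
    have : (1 + lam) ^ 4 - 4 * lam ^ 2 * (1 + lam) =
        (1 + lam) * ((1 + lam) ^ 3 - 4 * lam ^ 2) := by ring
    rw [this]
    apply mul_nonneg (by linarith)
    nlinarith [sq_nonneg (1 - lam), mul_pos h0 h0, mul_pos (mul_pos h0 h0) h0,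
      mul_pos h0 (sub_pos.2 h1)]
  have hs := Real.sq_sqrt hD
  set S := Real.sqrt ((1 + lam) ^ 4 - 4 * lam ^ 2 * (1 + lam)) with hS
  have hr : rho lam = ((1 + lam) ^ 2 - S) / (2 * lam ^ 2) := rfl
  have hl : (2 * lam ^ 2) ≠ 0 := by positivity
  have h2 : rho lam * (2 * lam ^ 2) = (1 + lam) ^ 2 - S := by
    rw [hr]; field_simp
  have h3 : 4 * lam ^ 2 * (lam ^ 2 * rho lam ^ 2 - (1 + lam) ^ 2 * rho lam + (1 + lam)) = 0 := by
    have : 4 * lam ^ 2 * (lam ^ 2 * rho lam ^ 2 - (1 + lam) ^ 2 * rho lam + (1 + lam)) =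
      (rho lam * (2 * lam ^ 2)) ^ 2 - 2 * (1 + lam) ^ 2 * (rho lam * (2 * lam ^ 2)) +
        4 * lam ^ 2 * (1 + lam) := by ring
    rw [this, h2]
    nlinarith [hs]
  have h4 : (4 * lam ^ 2) ≠ 0 := by positivity
  exact (mul_eq_zero.1 h3).resolve_left h4

lemma rho_pos {lam : ℝ} (h0 : 0 < lam) (h1 : lam < 1) : 0 < rho lam := by
  unfold rho
  apply div_pos _ (by positivity)
  rw [sub_pos, Real.sqrt_lt' (by positivity)]
  nlinarith [mul_pos (mul_pos h0 h0) (by linarith : (0:ℝ) < 1 + lam)]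

lemma rho_lt_one {lam : ℝ} (h0 : 0 < lam) (h1 : lam < 1) : rho lam < 1 := by
  unfold rho
  rw [div_lt_one (by positivity)]
  have h2 : (1 + lam) ^ 2 - 2 * lam ^ 2 < Real.sqrt ((1 + lam) ^ 4 - 4 * lam ^ 2 * (1 + lam)) := by
    apply Real.lt_sqrt_of_sq_lt
    nlinarith [mul_pos (mul_pos h0 h0) (mul_pos h0 (sub_pos.2 h1)), mul_pos (mul_pos h0 h0) h0,
      mul_pos (mul_pos h0 h0) (sub_pos.2 h1)]
  linarith

/-- the value of the game -/
noncomputable def val (lam : ℝ) : ℝ := lam * (lam + (1 - lam) * rho lam)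

/-- the potential of the infiltrator -/
noncomputable def pot (lam : ℝ) (c : ℤ) : ℝ :=
  if c = 3 then lam / (1 - rho lam) else val lam / (1 - rho lam)

lemma bellman {lam : ℝ} (h0 : 0 < lam) (h1 : lam < 1) (c d : ℤ) (hc1 : 1 ≤ c) (hc : c ≤ 3)
    (hd1 : 1 ≤ d) (hd : d ≤ 3) (hcd : |d - c| ≤ 1) :
    pot lam c ≤ lam ^ ((if c = 2 then 1 else 0) + (if d = 3 then 1 else 0)) +
      rho lam * (lam ^ (if c = 1 then 1 else 0) * pot lam d) := by
  have hr0 := rho_pos h0 h1
  have hr1 := rho_lt_one h0 h1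
  have hq := rho_quad h0 h1
  set r := rho lam with hr
  have hp : 0 < 1 - r := by linarith
  have hv : val lam = lam * (lam + (1 - lam) * r) := rfl
  have e1 : val lam / (1 - r) = 1 + r * (lam * (val lam / (1 - r))) := by
    have h2 : val lam * (1 - lam * r) = 1 - r := by
      rw [hv]
      have : lam * (lam + (1 - lam) * r) * (1 - lam * r) - (1 - r) =
        -(1 - lam) * (lam ^ 2 * r ^ 2 - (1 + lam) ^ 2 * r + (1 + lam)) := by ring
      rw [hq] at this
      linarith
    field_simp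
    linarith
  have e2 : val lam / (1 - r) = lam ^ 2 + r * (lam / (1 - r)) := by
    rw [hv]; field_simp; ring
  have e3 : lam / (1 - r) = lam + r * (lam / (1 - r)) := by
    field_simp; ring
  have i1 : val lam / (1 - r) ≤ lam + r * (val lam / (1 - r)) := by
    have : val lam / (1 - r) - r * (val lam / (1 - r)) = val lam := by field_simp
    have h3 : val lam ≤ lam := by
      rw [hv]
      have h4 : lam + (1 - lam) * r ≤ 1 := by nlinarith [mul_pos (sub_pos.2 h1) hp]
      calc lam * (lam + (1 - lam) * r) ≤ lam * 1 := mul_le_mul_of_nonneg_left h4 h0.le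
        _ = lam := mul_one _
    linarith
  have i2 : lam / (1 - r) ≤ 1 + r * (val lam / (1 - r)) := by
    rw [hv, div_le_iff₀ hp]
    have : (1 + r * (lam * (lam + (1 - lam) * r) / (1 - r))) * (1 - r) =
      (1 - r) + r * (lam * (lam + (1 - lam) * r)) := by field_simp
    rw [this]
    have h5 : 0 ≤ (1 - lam) * ((1 - r) * (1 - lam * r)) := by
      apply mul_nonneg (by linarith)
      apply mul_nonneg hp.le
      nlinarith
    nlinarith
  rw [abs_le] at hcd
  unfold pot
  have hc' : c = 1 ∨ c = 2 ∨ c = 3 := by omega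
  have hd' : d = 1 ∨ d = 2 ∨ d = 3 := by omega
  rcases hc' with rfl | rfl | rfl <;> rcases hd' with rfl | rfl | rfl <;>
    first
      | (exfalso; omega)
      | (norm_num; linarith)

end Pool.Agent.T9h92.INF
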