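import Pool.Agent.T9h92.INF.Basic

set_option autoImplicit false

open Finset Pool.Agent.H428I

namespace Pool.Agent.T9h92.INF

/-- the front: one cell up at each time unit, except at the multiples of `m` -/
def fr (m t : ℕ) : ℤ := 1 + (t : ℤ) - ((t / m : ℕ) : ℤ)

/-- the sweep of the scale `j`, with the delay `e`: down from the front to cell 1, then back to the
front of the next scale -/
def swp (m j : ℕ) (e : Bool) (t : ℕ) : ℤ :=
  max (max 1 (1 + (t : ℤ) - 4 * ((4 * m) ^ j : ℕ)))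
    (min (fr m ((4 * m) ^ j)) (fr m ((4 * m) ^ j) + ((4 * m) ^ j : ℕ) + (if e then 1 else 0) - t))

/-- follow the front up to the scale `i`, then sweep -/
def yy (m i : ℕ) (e : ℕ → Bool) (t : ℕ) : ℤ :=
  if t = 0 then 1 else
    if Nat.log (4 * m) t < i then fr m t else swp m (Nat.log (4 * m) t) (e (Nat.log (4 * m) t)) t

/-- the searcher's path: as above up to the time `(4 m) ^ L`, then stay -/
def ypath (m L i : ℕ) (e : ℕ → Bool) (t : ℕ) : ℤ := yy m i e (min t ((4 * m) ^ L))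

lemma fr_succ (m t : ℕ) : fr m (t + 1) = fr m t + 1 - (if m ∣ t + 1 then 1 else 0) := by
  unfold fr
  rw [Nat.succ_div]
  split_ifs <;> push_cast <;> ring

lemma fr_le (m t : ℕ) : fr m t ≤ 1 + t := by
  unfold fr
  have : (0 : ℤ) ≤ ((t / m : ℕ) : ℤ) := by positivity
  linarith

lemma fr_le' (m t : ℕ) (hm : 1 ≤ m) (h : m ≤ t) : fr m t ≤ t := by
  unfold fr
  have h1 : 1 ≤ t / m := (Nat.one_le_div_iff (by omega)).2 h
  have : (1 : ℤ) ≤ ((t / m : ℕ) : ℤ) := by exact_mod_cast h1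
  linarith

lemma one_le_fr (m t : ℕ) : 1 ≤ fr m t := by
  unfold fr
  have h1 : t / m ≤ t := Nat.div_le_self t m
  have : ((t / m : ℕ) : ℤ) ≤ t := by exact_mod_cast h1
  linarith

lemma fr_zero (m : ℕ) : fr m 0 = 1 := by simp [fr]

lemma fr_one (m : ℕ) (hm : 2 ≤ m) : fr m 1 = 2 := by
  unfold fr
  rw [Nat.div_eq_of_lt (by omega)]
  norm_num

lemma fr_step (m t : ℕ) : fr m t ≤ fr m (t + 1) ∧ fr m (t + 1) ≤ fr m t + 1 := by
  rw [fr_succ]
  split_ifs <;> constructor <;> linarith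

lemma fr_pow (m j : ℕ) (hm : 1 ≤ m) :
    fr m ((4 * m) ^ (j + 1)) = 1 + ((4 * m) ^ (j + 1) : ℕ) - 4 * ((4 * m) ^ j : ℕ) := by
  unfold fr
  have : (4 * m) ^ (j + 1) / m = 4 * (4 * m) ^ j := by
    rw [pow_succ, show (4 * m) ^ j * (4 * m) = m * (4 * (4 * m) ^ j) by ring,
      Nat.mul_div_cancel_left _ (by omega)]
  rw [this]
  push_cast
  ring

lemma swp_step (m j : ℕ) (e : Bool) (t : ℕ) : |swp m j e (t + 1) - swp m j e t| ≤ 1 := by
  unfold swp
  rw [abs_le]
  generalize fr m ((4 * m) ^ j) = F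
  generalize (((4 * m) ^ j : ℕ) : ℤ) = b
  push_cast
  split_ifs <;> constructor <;> omega

lemma swp_start (m j : ℕ) (e : Bool) (hm : 1 ≤ m) : swp m j e ((4 * m) ^ j) = fr m ((4 * m) ^ j) := by
  unfold swp
  have h1 := one_le_fr m ((4 * m) ^ j)
  have h2 : 1 ≤ (4 * m) ^ j := Nat.one_le_pow _ _ (by omega)
  have h3 : (1 : ℤ) ≤ (((4 * m) ^ j : ℕ) : ℤ) := by exact_mod_cast h2
  generalize fr m ((4 * m) ^ j) = F at *
  generalize (((4 * m) ^ j : ℕ) : ℤ) = b at *
  split_ifs <;> omega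

lemma swp_end (m j : ℕ) (e : Bool) (hm : 2 ≤ m) :
    swp m j e ((4 * m) ^ (j + 1)) = fr m ((4 * m) ^ (j + 1)) := by
  rw [fr_pow m j (by omega)]
  unfold swp
  have h1 := one_le_fr m ((4 * m) ^ j)
  have h1' := fr_le m ((4 * m) ^ j)
  have h2 : 1 ≤ (4 * m) ^ j := Nat.one_le_pow _ _ (by omega)
  have h3 : (1 : ℤ) ≤ (((4 * m) ^ j : ℕ) : ℤ) := by exact_mod_cast h2
  have h4 : 8 * (4 * m) ^ j ≤ (4 * m) ^ (j + 1) := by
    rw [pow_succ, mul_comm]
    exact Nat.mul_le_mul_left _ (by omega)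
  have h5 : (8 : ℤ) * (((4 * m) ^ j : ℕ) : ℤ) ≤ (((4 * m) ^ (j + 1) : ℕ) : ℤ) := by exact_mod_cast h4
  generalize fr m ((4 * m) ^ j) = F at *
  generalize (((4 * m) ^ j : ℕ) : ℤ) = b at *
  generalize (((4 * m) ^ (j + 1) : ℕ) : ℤ) = c at *
  split_ifs <;> omega

lemma yy_step (m i : ℕ) (e : ℕ → Bool) (hm : 2 ≤ m) (t : ℕ) :
    |yy m i e (t + 1) - yy m i e t| ≤ 1 := by
  have hB : 1 < 4 * m := by omega
  rcases Nat.eq_zero_or_pos t with rfl | ht
  · have h1 : yy m i e 1 = 2 := by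
      unfold yy
      rw [if_neg (by norm_num), Nat.log_one_right]
      split_ifs
      · exact fr_one m hm
      · have := swp_start m 0 (e 0) (by omega)
        rw [pow_zero] at this
        rw [this, fr_one m hm]
    have h0 : yy m i e 0 = 1 := by unfold yy; rw [if_pos rfl]
    rw [show 0 + 1 = 1 from rfl, h1, h0]
    norm_num
  · set j := Nat.log (4 * m) t with hj
    have hlo : (4 * m) ^ j ≤ t := Nat.pow_log_le_self _ (by omega)
    have hhi : t < (4 * m) ^ (j + 1) := Nat.lt_pow_succ_log_self hB t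
    have hyt : yy m i e t = if j < i then fr m t else swp m j (e j) t := by
      unfold yy
      rw [if_neg (by omega)]
    have hyt1 : yy m i e (t + 1) = if j < i then fr m (t + 1) else swp m j (e j) (t + 1) := by
      rcases Nat.lt_or_ge (t + 1) ((4 * m) ^ (j + 1)) with h | h
      · have h2 : Nat.log (4 * m) (t + 1) = j :=
          (Nat.log_eq_iff (Or.inr ⟨hB, by omega⟩)).2 ⟨by omega, h⟩
        unfold yy
        rw [if_neg (by omega), h2]
      · have h3 : t + 1 = (4 * m) ^ (j + 1) := by omega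
        have h2 : Nat.log (4 * m) (t + 1) = j + 1 := by rw [h3, Nat.log_pow hB]
        unfold yy
        rw [if_neg (by omega), h2, h3, swp_start m (j + 1) _ (by omega), swp_end m j _ hm]
        split_ifs <;> rfl
    rw [hyt, hyt1]
    split_ifs
    · have := fr_step m t
      rw [abs_le]
      constructor <;> linarith [this.1, this.2]
    · exact swp_step m j (e j) t

lemma yy_range (m i L n : ℕ) (e : ℕ → Bool) (hm : 2 ≤ m) (hL : 1 ≤ L) (hn : (4 * m) ^ L ≤ n)
    (t : ℕ) (ht : t ≤ (4 * m) ^ L) : 1 ≤ yy m i e t ∧ yy m i e t ≤ n := by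
  have hB : 1 < 4 * m := by omega
  have hmL : 4 * m ≤ (4 * m) ^ L := Nat.le_self_pow (by omega) _
  have frn : ∀ s : ℕ, s ≤ (4 * m) ^ L → fr m s ≤ n := by
    intro s hs
    rcases Nat.lt_or_ge s m with h | h
    · have := fr_le m s
      have h3 : 1 + s ≤ n := by omega
      have h4 : (1 : ℤ) + s ≤ n := by exact_mod_cast h3
      linarith
    · have := fr_le' m s (by omega) h
      have h4 : (s : ℤ) ≤ n := by exact_mod_cast hs.trans hn
      linarith
  unfold yy
  split_ifs with h1 h2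
  · exact ⟨le_refl _, by exact_mod_cast (by omega : 1 ≤ n)⟩
  · exact ⟨one_le_fr m t, frn t ht⟩
  · have hlo : (4 * m) ^ (Nat.log (4 * m) t) ≤ t := Nat.pow_log_le_self _ h1
    have h3 := frn _ (hlo.trans ht)
    have h4 : (t : ℤ) ≤ n := by exact_mod_cast ht.trans hn
    have h5 : 1 ≤ (4 * m) ^ (Nat.log (4 * m) t) := Nat.one_le_pow _ _ (by omega)
    have h6 : (1 : ℤ) ≤ (((4 * m) ^ (Nat.log (4 * m) t) : ℕ) : ℤ) := by exact_mod_cast h5
    have h7 : (1 : ℤ) ≤ n := by exact_mod_cast (by omega : 1 ≤ n)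
    unfold swp
    generalize fr m ((4 * m) ^ (Nat.log (4 * m) t)) = F at *
    generalize (((4 * m) ^ (Nat.log (4 * m) t) : ℕ) : ℤ) = b at *
    split_ifs <;> constructor <;> omega

lemma ypath_search (m i L n : ℕ) (e : ℕ → Bool) (hm : 2 ≤ m) (hL : 1 ≤ L) (hn : (4 * m) ^ L ≤ n)
    (w : ℕ) (hw : 1 ≤ w) : IsSearch n w (ypath m L i e) := by
  refine ⟨?_, fun k => ?_⟩
  · unfold ypath yy
    simp
  · have h := yy_range m i L n e hm hL hn (min (k + 1) ((4 * m) ^ L)) (min_le_right _ _)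
    refine ⟨h.1, h.2, ?_⟩
    have hw' : (1 : ℤ) ≤ w := by exact_mod_cast hw
    refine le_trans ?_ hw'
    unfold ypath
    rcases Nat.lt_or_ge k ((4 * m) ^ L) with h1 | h1
    · rw [min_eq_left (by omega), min_eq_left (by omega)]
      exact yy_step m i e hm k
    · rw [min_eq_right (by omega), min_eq_right h1]
      simp

end Pool.Agent.T9h92.INF
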