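import Pool.Agent.T9h92.INF.Up1

set_option autoImplicit false

open Finset Pool.Agent.H428I

namespace Pool.Agent.T9h92.INF

lemma infil_add {n : ℕ} {x : ℕ → ℤ} (hx : IsInfil n x) (t d : ℕ) : x (t + d) ≤ x t + d := by
  induction d with
  | zero => simp
  | succ d ih =>
    have h := (hx.2 (t + d)).2.2
    rw [abs_le] at h
    push_cast
    rw [← add_assoc t d 1]
    linarith [h.2]

lemma infil_one {n : ℕ} {x : ℕ → ℤ} (hx : IsInfil n x) (t : ℕ) : 1 ≤ x t := by
  rcases t with _ | t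
  · rw [hx.1]
  · exact (hx.2 t).1

/-- passing the front costs `m - 1` catches -/
lemma front {n m : ℕ} (hm : 2 ≤ m) {x : ℕ → ℤ} (hx : IsInfil n x) (P : ℕ) (hP : fr m P < x P)
    (hlt : ∀ t, t < P → x t ≤ fr m t) :
    m ≤ P ∧ ∀ t, P - (m - 1) ≤ t → t < P → x t = fr m t := by
  have hP0 : P ≠ 0 := by
    rintro rfl
    rw [fr_zero, hx.1] at hP
    exact lt_irrefl _ hP
  obtain ⟨p, rfl⟩ := Nat.exists_eq_succ_of_ne_zero hP0
  simp only [Nat.succ_eq_add_one] at *
  have h1 := infil_add hx p 1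
  have h2 := hlt p (by omega)
  have h3 := fr_succ m p
  have hd : m ∣ p + 1 := by
    by_contra h
    rw [if_neg h] at h3
    push_cast at h1
    linarith
  rw [if_pos hd] at h3
  have h4 : x p = fr m p := by
    push_cast at h1
    linarith
  have hmp : m ≤ p + 1 := Nat.le_of_dvd (by omega) hd
  refine ⟨hmp, fun t ht1 ht2 => ?_⟩
  obtain ⟨v, hv⟩ := hd
  have hv0 : 1 ≤ v := by
    rcases Nat.eq_zero_or_pos v with h | h
    · rw [h] at hv; omega
    · exact h
  obtain ⟨u, rfl⟩ : ∃ u, v = u + 1 := ⟨v - 1, by omega⟩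
  have e1 : t / m = u := by
    apply Nat.div_eq_of_lt_le
    · have : u * m = p + 1 - m := by rw [hv]; ring_nf; omega
      omega
    · have : (u + 1) * m = p + 1 := by rw [hv]; ring
      omega
  have e2 : p / m = u := by
    apply Nat.div_eq_of_lt_le
    · have : u * m = p + 1 - m := by rw [hv]; ring_nf; omega
      omega
    · have : (u + 1) * m = p + 1 := by rw [hv]; ring
      omega
  obtain ⟨d, rfl⟩ : ∃ d, p = t + d := ⟨p - t, by omega⟩
  have h5 := infil_add hx t d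
  have h6 := hlt t (by omega)
  have h7 : fr m (t + d) = fr m t + d := by
    unfold fr
    rw [e1, e2]
    push_cast
    ring
  linarith

/-- a sweep catches an infiltrator who is behind the front, for one of the two delays -/
lemma sweep {n m : ℕ} (hm : 2 ≤ m) {x : ℕ → ℤ} (hx : IsInfil n x) (j : ℕ)
    (hj : x ((4 * m) ^ j) ≤ fr m ((4 * m) ^ j)) :
    ∃ (e : Bool) (t : ℕ), (4 * m) ^ j ≤ t ∧ t < (4 * m) ^ (j + 1) ∧ x t = swp m j e t := by
  classical
  have h1 := one_le_fr m ((4 * m) ^ j)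
  have h1' := fr_le m ((4 * m) ^ j)
  have h2 : 1 ≤ (4 * m) ^ j := Nat.one_le_pow _ _ (by omega)
  have h4 : 8 * (4 * m) ^ j ≤ (4 * m) ^ (j + 1) := by
    rw [pow_succ, mul_comm]
    exact Nat.mul_le_mul_left _ (by omega)
  unfold swp
  generalize hF : fr m ((4 * m) ^ j) = F at *
  generalize hb : (4 * m) ^ j = b at *
  generalize (4 * m) ^ (j + 1) = c at *
  have hex : ∃ t, b ≤ t ∧ F + b - t ≤ x t := by
    refine ⟨b + (F - 1).toNat, by omega, ?_⟩
    have := infil_one hx (b + (F - 1).toNat)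
    have h5 : (((b + (F - 1).toNat : ℕ)) : ℤ) = b + (F - 1) := by
      push_cast
      omega
    rw [h5]
    linarith
  obtain ⟨t, ⟨ht1, ht2⟩, ht3⟩ : ∃ t, (b ≤ t ∧ F + b - t ≤ x t) ∧
      ∀ k, k < t → ¬ (b ≤ k ∧ F + b - k ≤ x k) :=
    ⟨Nat.find hex, Nat.find_spec hex, fun k hk => Nat.find_min hex hk⟩
  have ht4 : t ≤ 2 * b := by
    by_contra h
    apply ht3 (2 * b) (by omega)
    refine ⟨by omega, ?_⟩
    have := infil_one hx (2 * b)
    push_cast
    linarith
  have hone := infil_one hx t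
  rcases eq_or_lt_of_le ht2 with h5 | h5
  · refine ⟨false, t, ht1, by omega, ?_⟩
    simp only [Bool.false_eq_true, if_false]
    omega
  · have htb : b ≠ t := by
      rintro rfl
      linarith
    obtain ⟨s, rfl⟩ : ∃ s, t = s + 1 := ⟨t - 1, by omega⟩
    have h6 := ht3 s (by omega)
    have h7 := infil_add hx s 1
    have h8 : x s < F + b - s := by
      by_contra h
      exact h6 ⟨by omega, by linarith⟩
    refine ⟨true, s + 1, ht1, by omega, ?_⟩
    simp only [if_true]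
    push_cast at *
    omega

/-- the payoff when the searcher follows the front beyond the passing time -/
lemma win_front {lam : ℝ} (h0 : 0 < lam) (h1 : lam < 1) {n m L i : ℕ} (hm : 2 ≤ m)
    (e : ℕ → Bool) {x : ℕ → ℤ} (hx : IsInfil n x) {T : ℕ} (hT : x T = n + 1)
    (hTlt : ∀ k, k < T → x k ≠ n + 1) (P : ℕ) (hP : fr m P < x P)
    (hlt : ∀ t, t < P → x t ≤ fr m t) (hPT : P ≤ T) (hPi : P ≤ (4 * m) ^ i) (hiL : i ≤ L) :
    win n lam x (ypath m L i e) ≤ lam ^ (m - 1) := by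
  obtain ⟨hmP, hc⟩ := front hm hx P hP hlt
  refine win_le_pow h0 h1 hT hTlt (Finset.Ico (P - (m - 1)) P) ?_ ?_
  · intro k hk
    rw [mem_Ico] at hk
    refine ⟨by omega, by omega, ?_⟩
    rw [hc k hk.1 hk.2]
    have hpow : (4 * m) ^ i ≤ (4 * m) ^ L := Nat.pow_le_pow_right (by omega) hiL
    unfold ypath yy
    rw [min_eq_left (by omega), if_neg (by omega),
      if_pos (Nat.log_lt_of_lt_pow (by omega) (by omega))]
  · rw [Nat.card_Ico]
    omega

/-- the number of the catches of the sweeps -/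
lemma win_sweep {lam : ℝ} (h0 : 0 < lam) (h1 : lam < 1) {n m L i J : ℕ} (hm : 2 ≤ m)
    (e : ℕ → Bool) {x : ℕ → ℤ} {T : ℕ} (hT : x T = n + 1)
    (hTlt : ∀ k, k < T → x k ≠ n + 1) (g : ℕ → Bool) (tau : ℕ → ℕ)
    (hg : ∀ j, j < J → (4 * m) ^ j ≤ tau j ∧ tau j < (4 * m) ^ (j + 1) ∧
      x (tau j) = swp m j (g j) (tau j)) (hJL : J ≤ L) (hJT : (4 * m) ^ J ≤ T) :
    win n lam x (ypath m L i e) ≤ lam ^ ((Finset.Ico i J).filter (fun j => e j = g j)).card := by
  have hB : 1 < 4 * m := by omega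
  have hlog : ∀ j, j < J → Nat.log (4 * m) (tau j) = j := by
    intro j hj
    obtain ⟨a1, a2, _⟩ := hg j hj
    have : 1 ≤ (4 * m) ^ j := Nat.one_le_pow _ _ (by omega)
    exact (Nat.log_eq_iff (Or.inr ⟨hB, by omega⟩)).2 ⟨a1, a2⟩
  have hinj : Set.InjOn tau (((Finset.Ico i J).filter (fun j => e j = g j) : Finset ℕ) : Set ℕ) := by
    intro a ha b hb hab
    rw [mem_coe, mem_filter, mem_Ico] at ha hb
    rw [← hlog a ha.1.2, ← hlog b hb.1.2, hab]
  refine win_le_pow h0 h1 hT hTlt (((Finset.Ico i J).filter (fun j => e j = g j)).image tau) ?_ ?_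
  · intro k hk
    rw [mem_image] at hk
    obtain ⟨j, hj, rfl⟩ := hk
    rw [mem_filter, mem_Ico] at hj
    obtain ⟨⟨hj1, hj2⟩, hj3⟩ := hj
    obtain ⟨a1, a2, a3⟩ := hg j hj2
    have h3 : 1 ≤ (4 * m) ^ j := Nat.one_le_pow _ _ (by omega)
    have h4 : (4 * m) ^ (j + 1) ≤ (4 * m) ^ J := Nat.pow_le_pow_right (by omega) (by omega)
    have h5 : (4 * m) ^ J ≤ (4 * m) ^ L := Nat.pow_le_pow_right (by omega) hJL
    refine ⟨by omega, by omega, ?_⟩
    rw [a3]
    unfold ypath yy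
    rw [min_eq_left (by omega), if_neg (by omega), hlog j hj2, if_neg (by omega), hj3]
  · rw [card_image_of_injOn hinj]

end Pool.Agent.T9h92.INF
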