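import Pool.Agent.T9h92.INF.Up2

set_option autoImplicit false

open Finset Pool.Agent.H428I

namespace Pool.Agent.T9h92.INF

/-- the delays of the sweeps of the scales `0, ..., L - 1` -/
def ext {L : ℕ} (e : Fin L → Bool) (j : ℕ) : Bool := if h : j < L then e ⟨j, h⟩ else false

lemma prod_filter_pow (lam : ℝ) (S : Finset ℕ) (p : ℕ → Prop) [DecidablePred p] :
    lam ^ (S.filter p).card = ∏ k ∈ S, if p k then lam else 1 := by
  induction S using Finset.induction_on with
  | empty => simp
  | insert a S ha ih =>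
    rw [prod_insert ha, filter_insert, ← ih]
    by_cases h : p a
    · rw [if_pos h, if_pos h, card_insert_of_notMem (by simp [ha]), pow_succ, mul_comm]
    · rw [if_neg h, if_neg h, one_mul]

lemma bits_avg (lam : ℝ) (L i J : ℕ) (hJ : J ≤ L) (g : ℕ → Bool) :
    ∑ e : Fin L → Bool, (1 / 2 : ℝ) ^ L *
      lam ^ ((Finset.Ico i J).filter (fun j => ext e j = g j)).card = ((1 + lam) / 2) ^ (J - i) := by
  classical
  have h1 : ∀ e : Fin L → Bool, (1 / 2 : ℝ) ^ L *
      lam ^ ((Finset.Ico i J).filter (fun j => ext e j = g j)).card =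
      ∏ j : Fin L, ((1 / 2 : ℝ) *
        (if (i ≤ (j : ℕ) ∧ (j : ℕ) < J) ∧ e j = g j then lam else 1)) := by
    intro e
    rw [prod_mul_distrib, prod_const, card_univ, Fintype.card_fin]
    congr 1
    have e1 : (Finset.Ico i J).filter (fun j => ext e j = g j) =
        (range L).filter (fun j => (i ≤ j ∧ j < J) ∧ ext e j = g j) := by
      ext j
      simp only [mem_filter, mem_Ico, mem_range]
      constructor
      · rintro ⟨h1, h2⟩
        exact ⟨by omega, h1, h2⟩
      · rintro ⟨_, h1, h2⟩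
        exact ⟨h1, h2⟩
    rw [e1, prod_filter_pow, ← Fin.prod_univ_eq_prod_range
      (fun j => if (i ≤ j ∧ j < J) ∧ ext e j = g j then lam else 1) L]
    apply prod_congr rfl
    intro j _
    have : ext e (j : ℕ) = e j := by unfold ext; rw [dif_pos j.2]
    simp only [this]
  simp only [h1]
  have h2 := Finset.prod_univ_sum (fun _ : Fin L => (Finset.univ : Finset Bool))
    (fun (j : Fin L) (b : Bool) => ((1 / 2 : ℝ) *
        (if (i ≤ (j : ℕ) ∧ (j : ℕ) < J) ∧ b = g j then lam else 1)))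
  rw [Fintype.piFinset_univ] at h2
  rw [← h2]
  have h3 : ∀ j : Fin L, ∑ b : Bool, ((1 / 2 : ℝ) *
        (if (i ≤ (j : ℕ) ∧ (j : ℕ) < J) ∧ b = g j then lam else 1)) =
      if i ≤ (j : ℕ) ∧ (j : ℕ) < J then (1 + lam) / 2 else 1 := by
    intro j
    rw [Fintype.sum_bool]
    by_cases h : i ≤ (j : ℕ) ∧ (j : ℕ) < J
    · cases hg : g j <;> simp [h] <;> ring
    · simp only [h, false_and, if_false]
      norm_num
  simp only [h3]
  rw [Fin.prod_univ_eq_prod_range (fun j => if i ≤ j ∧ j < J then (1 + lam) / 2 else 1) L,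
    ← prod_filter_pow]
  congr 1
  have : (range L).filter (fun j => i ≤ j ∧ j < J) = Finset.Ico i J := by
    ext j
    simp only [mem_filter, mem_Ico, mem_range]
    omega
  rw [this, Nat.card_Ico]

lemma geo_sum_le {q : ℝ} (h0 : 0 < q) (h1 : q < 1) (L J : ℕ) :
    ∑ i ∈ range L, (if i ≤ J then q ^ (J - i) else 0) ≤ 1 / (1 - q) := by
  have h2 : ∑ i ∈ range L, (if i ≤ J then q ^ (J - i) else 0) ≤
      ∑ i ∈ range (J + 1), q ^ (J - i) := by
    rw [← sum_filter]
    apply sum_le_sum_of_subset_of_nonneg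
    · intro i hi
      rw [mem_filter] at hi
      rw [mem_range]
      omega
    · intro i _ _
      positivity
  have h3 : ∑ i ∈ range (J + 1), q ^ (J - i) = ∑ i ∈ range (J + 1), q ^ i := by
    rw [← sum_range_reflect (fun i => q ^ i) (J + 1)]
    rfl
  rw [h3] at h2
  refine h2.trans ?_
  have h4 := (summable_geometric_of_lt_one h0.le h1).sum_le_tsum (range (J + 1))
    (fun i _ => (pow_pos h0 i).le)
  rw [tsum_geometric_of_lt_one h0.le h1] at h4
  rw [one_div]
  exact h4

/-- **the guarantee of the searcher** -/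
theorem up_search {lam : ℝ} (h0 : 0 < lam) (h1 : lam < 1) {n m L : ℕ} (hm : 2 ≤ m) (hL : 1 ≤ L)
    (hn : (4 * m) ^ L ≤ n) (x : ℕ → ℤ) (hx : IsInfil n x) :
    ∑ i : Fin L, ∑ e : Fin L → Bool, 1 / ((L : ℝ) * 2 ^ L) * win n lam x (ypath m L i (ext e)) ≤
      lam ^ (m - 1) + 2 / ((1 - lam) * L) := by
  classical
  have hLp : (0 : ℝ) < L := by exact_mod_cast hL
  have hlp : 0 < 1 - lam := by linarith
  have hB : 1 < 4 * m := by omega
  by_cases hT : ∃ T, x T = (n : ℤ) + 1
  swap
  · have h3 : ∀ y : ℕ → ℤ, win n lam x y = 0 := by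
      intro y
      unfold win
      rw [dif_neg hT]
    simp only [h3, mul_zero, sum_const_zero]
    positivity
  obtain ⟨T, hT1, hT2⟩ : ∃ T, x T = (n : ℤ) + 1 ∧ ∀ k, k < T → x k ≠ (n : ℤ) + 1 :=
    ⟨Nat.find hT, Nat.find_spec hT, fun k hk => Nat.find_min hT hk⟩
  have hex : ∃ t, fr m t < x t ∨ (4 * m) ^ L < t := ⟨(4 * m) ^ L + 1, Or.inr (by omega)⟩
  obtain ⟨P, hP1, hP2⟩ : ∃ P, (fr m P < x P ∨ (4 * m) ^ L < P) ∧
      ∀ k, k < P → ¬ (fr m k < x k ∨ (4 * m) ^ L < k) :=
    ⟨Nat.find hex, Nat.find_spec hex, fun k hk => Nat.find_min hex hk⟩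
  have htL : 1 ≤ (4 * m) ^ L := Nat.one_le_pow _ _ (by omega)
  have hlt : ∀ t, t < P → x t ≤ fr m t := fun t ht => by
    have := hP2 t ht
    push Not at this
    exact this.1
  have hltL : ∀ t, t < P → t ≤ (4 * m) ^ L := fun t ht => by
    have := hP2 t ht
    push Not at this
    exact this.2
  have hPge : 2 ≤ P := by
    by_contra h
    have hx1 := infil_add hx 0 1
    rw [hx.1] at hx1
    have h3 : P = 0 ∨ P = 1 := by omega
    rcases h3 with rfl | rfl
    · rcases hP1 with h4 | h4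
      · rw [fr_zero, hx.1] at h4; exact lt_irrefl _ h4
      · omega
    · rcases hP1 with h4 | h4
      · rw [fr_one m hm] at h4
        rw [show 0 + 1 = 1 from rfl] at hx1
        push_cast at hx1
        linarith
      · omega
  have hmL : 4 * m ≤ (4 * m) ^ L := Nat.le_self_pow (by omega) _
  have hPT : P ≤ T := by
    by_contra h
    have h3 := hlt T (by omega)
    have h4 := hltL T (by omega)
    rw [hT1] at h3
    rcases Nat.lt_or_ge T m with h5 | h5
    · have := fr_le m T
      have h6 : 1 + T ≤ n := by omega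
      have h7 : (1 : ℤ) + T ≤ n := by exact_mod_cast h6
      linarith
    · have := fr_le' m T (by omega) h5
      have h7 : (T : ℤ) ≤ n := by exact_mod_cast h4.trans hn
      linarith
  set J := Nat.log (4 * m) (P - 1) with hJ
  have hJ1 : (4 * m) ^ J ≤ P - 1 := Nat.pow_log_le_self _ (by omega)
  have hJ2 : P - 1 < (4 * m) ^ (J + 1) := Nat.lt_pow_succ_log_self hB _
  have hJL : J ≤ L := by
    have h3 := hltL (P - 1) (by omega)
    exact (Nat.pow_le_pow_iff_right hB).1 (hJ1.trans h3)
  -- the good delays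
  have hgood : ∀ j, ∃ (b : Bool) (t : ℕ), j < J →
      ((4 * m) ^ j ≤ t ∧ t < (4 * m) ^ (j + 1) ∧ x t = swp m j b t) := by
    intro j
    by_cases hj : j < J
    · have h3 : (4 * m) ^ j ≤ (4 * m) ^ J := Nat.pow_le_pow_right (by omega) (by omega)
      obtain ⟨b, t, h4⟩ := sweep hm hx j (hlt _ (by omega))
      exact ⟨b, t, fun _ => h4⟩
    · exact ⟨true, 0, fun h => absurd h hj⟩
  choose g tau hg using hgood
  have hi : ∀ i : Fin L, ∑ e : Fin L → Bool, (1 / 2 : ℝ) ^ L * win n lam x (ypath m L i (ext e)) ≤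
      (if (i : ℕ) ≤ J then ((1 + lam) / 2) ^ (J - (i : ℕ)) else 0) + lam ^ (m - 1) := by
    intro i
    by_cases hiJ : (i : ℕ) ≤ J
    · rw [if_pos hiJ, ← bits_avg lam L i J hJL g]
      have h3 : ∑ e : Fin L → Bool, (1 / 2 : ℝ) ^ L * win n lam x (ypath m L i (ext e)) ≤
          ∑ e : Fin L → Bool, (1 / 2 : ℝ) ^ L *
            lam ^ ((Finset.Ico (i : ℕ) J).filter (fun j => ext e j = g j)).card := by
        apply sum_le_sum
        intro e _
        apply mul_le_mul_of_nonneg_left _ (by positivity)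
        exact win_sweep h0 h1 hm (ext e) hT1 hT2 g tau hg hJL (by omega)
      have h4 : 0 < lam ^ (m - 1) := by positivity
      linarith
    · rw [if_neg hiJ, zero_add]
      have h3 : (4 * m) ^ (J + 1) ≤ (4 * m) ^ (i : ℕ) :=
        Nat.pow_le_pow_right (by omega) (by omega)
      have h4 : (4 * m) ^ (i : ℕ) ≤ (4 * m) ^ L := Nat.pow_le_pow_right (by omega) i.2.le
      have h5 : ∀ e : Fin L → Bool, win n lam x (ypath m L i (ext e)) ≤ lam ^ (m - 1) := by
        intro e
        refine win_front h0 h1 hm (ext e) hx hT1 hT2 P ?_ hlt hPT (by omega) i.2.le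
        rcases hP1 with h6 | h6
        · exact h6
        · omega
      calc ∑ e : Fin L → Bool, (1 / 2 : ℝ) ^ L * win n lam x (ypath m L i (ext e))
          ≤ ∑ _e : Fin L → Bool, (1 / 2 : ℝ) ^ L * lam ^ (m - 1) :=
            sum_le_sum fun e _ => mul_le_mul_of_nonneg_left (h5 e) (by positivity)
        _ = lam ^ (m - 1) := by
            rw [sum_const, card_univ, Fintype.card_fun, Fintype.card_fin, Fintype.card_bool,
              nsmul_eq_mul]
            push_cast
            rw [← mul_assoc, ← mul_pow]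
            norm_num
  have hsum : ∑ i : Fin L, ∑ e : Fin L → Bool,
      1 / ((L : ℝ) * 2 ^ L) * win n lam x (ypath m L i (ext e)) =
      1 / (L : ℝ) * ∑ i : Fin L, ∑ e : Fin L → Bool,
        (1 / 2 : ℝ) ^ L * win n lam x (ypath m L i (ext e)) := by
    rw [mul_sum]
    apply sum_congr rfl
    intro i _
    rw [mul_sum]
    apply sum_congr rfl
    intro e _
    rw [one_div_pow]
    field_simp
  rw [hsum]
  have hq0 : 0 < (1 + lam) / 2 := by linarith
  have hq1 : (1 + lam) / 2 < 1 := by linarith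
  have h6 : ∑ i : Fin L, ∑ e : Fin L → Bool,
      (1 / 2 : ℝ) ^ L * win n lam x (ypath m L i (ext e)) ≤ 2 / (1 - lam) + L * lam ^ (m - 1) := by
    refine (sum_le_sum fun i _ => hi i).trans ?_
    rw [sum_add_distrib, sum_const, card_univ, Fintype.card_fin, nsmul_eq_mul,
      Fin.sum_univ_eq_sum_range (fun i => if i ≤ J then ((1 + lam) / 2) ^ (J - i) else 0) L]
    have h7 := geo_sum_le hq0 hq1 L J
    have h8 : 1 / (1 - (1 + lam) / 2) = 2 / (1 - lam) := by
      have : 1 - (1 + lam) / 2 = (1 - lam) / 2 := by ring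
      rw [this]
      field_simp
    rw [h8] at h7
    linarith
  have h9 := mul_le_mul_of_nonneg_left h6 (by positivity : 0 ≤ 1 / (L : ℝ))
  refine h9.trans (le_of_eq ?_)
  field_simp
  ring

end Pool.Agent.T9h92.INF
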