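import Mathlib
import Pool.Agent.T9h92.INF.LogLower

set_option autoImplicit false

namespace Pool.Agent.T9h92.INF.VarLower

open Finset Pool.Agent.H428I Pool.Agent.T9h92.INF

/-- **The infiltration game with a searcher of speed `w = 1`: for every `n` the infiltrator can
guarantee `lam ^ 2 / H_n`, where `H_n = 1 + 1/2 + ... + 1/n`.** -/
theorem result (n : ℕ) (hn : 1 ≤ n) :
    -- the weights `1 / ((s + 1) H_n)` are a probability distribution over legal paths
    (∀ s : ℕ, 0 < 1 / (((s : ℝ) + 1) * (harmonic n : ℝ))) ∧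
    ∑ s ∈ range n, 1 / (((s : ℝ) + 1) * (harmonic n : ℝ)) = 1 ∧
    (∀ s, IsInfil n (delay n s)) ∧
    -- the guarantee, against every path of a searcher of speed 1
    (∀ lam : ℝ, 0 < lam → lam < 1 → ∀ y : ℕ → ℤ, IsSearch n 1 y →
      lam ^ 2 / (harmonic n : ℝ) ≤
        ∑ s ∈ range n, 1 / (((s : ℝ) + 1) * (harmonic n : ℝ)) * win n lam (delay n s) y) ∧
    -- its size
    (∀ lam : ℝ, 0 < lam → lam ^ 2 / (1 + Real.log n) ≤ lam ^ 2 / (harmonic n : ℝ)) := by
  have hH : (0 : ℝ) < (harmonic n : ℝ) := by exact_mod_cast harmonic_pos (by omega)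
  have hHs : (harmonic n : ℝ) = ∑ s ∈ range n, 1 / ((s : ℝ) + 1) := by
    unfold harmonic
    push_cast
    exact sum_congr rfl fun s _ => by rw [one_div]
  have e : ∀ s : ℕ, 1 / (((s : ℝ) + 1) * (harmonic n : ℝ)) =
      1 / ((s : ℝ) + 1) / (harmonic n : ℝ) := fun s => by rw [div_div]
  refine ⟨fun s => by positivity, ?_, delay_infil_gen n, ?_, ?_⟩
  · simp only [e]
    rw [← sum_div, ← hHs, div_self hH.ne']
  · intro lam h0 h1 y hy
    have h := log_lower h0 h1 hn y hy
    have e2 : ∑ s ∈ range n, 1 / (((s : ℝ) + 1) * (harmonic n : ℝ)) * win n lam (delay n s) y =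
        (∑ s ∈ range n, 1 / ((s : ℝ) + 1) * win n lam (delay n s) y) / (harmonic n : ℝ) := by
      rw [sum_div]
      exact sum_congr rfl fun s _ => by rw [e]; ring
    rw [e2]
    exact div_le_div_of_nonneg_right h hH.le
  · intro lam h0
    exact div_le_div_of_nonneg_left (by positivity) hH (harmonic_le_one_add_log n)

end Pool.Agent.T9h92.INF.VarLower
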