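import Mathlib
import Pool.Agent.T9h92.INF.Up3

set_option autoImplicit false

namespace Pool.Agent.T9h92.INF.VarUpper

open Finset Pool.Agent.H428I Pool.Agent.T9h92.INF

/-- **The infiltration game for every searcher speed `w ≥ 1`, in particular `w = 1`: if
`(4 m) ^ L ≤ n`, the searcher can keep the infiltrator's winning probability below
`lam ^ (m - 1) + 2 / ((1 - lam) L)`. So the value tends to `0` as `n` tends to infinity.** -/
theorem result :
    (∀ n m L : ℕ, 2 ≤ m → 1 ≤ L → (4 * m) ^ L ≤ n →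
      -- the uniform distribution over the searcher's paths below, legal for every speed `w ≥ 1`
      ∑ _i : Fin L, ∑ _e : Fin L → Bool, 1 / ((L : ℝ) * 2 ^ L) = 1 ∧
      (∀ (i : Fin L) (e : Fin L → Bool) (w : ℕ), 1 ≤ w → IsSearch n w (ypath m L i (ext e))) ∧
      -- its guarantee
      ∀ lam : ℝ, 0 < lam → lam < 1 → ∀ x : ℕ → ℤ, IsInfil n x →
        ∑ i : Fin L, ∑ e : Fin L → Bool,
          1 / ((L : ℝ) * 2 ^ L) * win n lam x (ypath m L i (ext e)) ≤
            lam ^ (m - 1) + 2 / ((1 - lam) * L)) ∧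
    -- the bound tends to `0`
    (∀ lam : ℝ, 0 < lam → lam < 1 → ∀ eps : ℝ, 0 < eps → ∃ N : ℕ, ∀ n : ℕ, N ≤ n →
      ∃ m L : ℕ, 2 ≤ m ∧ 1 ≤ L ∧ (4 * m) ^ L ≤ n ∧
        lam ^ (m - 1) + 2 / ((1 - lam) * L) ≤ eps) := by
  refine ⟨fun n m L hm hL hn => ⟨?_, fun i e w hw => ypath_search m i L n (ext e) hm hL hn w hw,
    fun lam h0 h1 x hx => up_search h0 h1 hm hL hn x hx⟩, ?_⟩
  · have hLp : (0 : ℝ) < L := by exact_mod_cast hL
    simp only [sum_const, card_univ, Fintype.card_fun, Fintype.card_fin, Fintype.card_bool,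
      nsmul_eq_mul]
    push_cast
    field_simp
  · intro lam h0 h1 eps heps
    have hlp : 0 < 1 - lam := by linarith
    obtain ⟨k, hk⟩ := exists_pow_lt_of_lt_one (by linarith : 0 < eps / 2) h1
    obtain ⟨M, hM⟩ := exists_nat_gt (4 / ((1 - lam) * eps))
    refine ⟨(4 * (k + 2)) ^ (M + 1), fun n hn => ⟨k + 2, M + 1, by omega, by omega, hn, ?_⟩⟩
    have a1 : lam ^ (k + 2 - 1) ≤ eps / 2 := by
      rw [show k + 2 - 1 = k + 1 by omega]
      exact (pow_le_pow_of_le_one h0.le h1.le (Nat.le_succ k)).trans hk.le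
    have a2 : 2 / ((1 - lam) * ((M + 1 : ℕ) : ℝ)) ≤ eps / 2 := by
      rw [div_lt_iff₀ (by positivity)] at hM
      have hMp : (0 : ℝ) < ((M + 1 : ℕ) : ℝ) := by positivity
      rw [div_le_div_iff₀ (by positivity) (by norm_num)]
      push_cast
      nlinarith [mul_pos hlp heps]
    linarith

end Pool.Agent.T9h92.INF.VarUpper
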